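import Pool.Agent.P.MP_84b56d_ag.CI.Top
import Pool.Agent.P.MP_84b56d_ag.Q.Final

/-! From the algebraic theorem to integral points. -/

open MvPolynomial TopologicalSpace Topology Pool.Agent.P.MP_84b56d_ag.Z Pool.Agent.P.MP_84b56d_ag.Q
open scoped LinearAlgebra.Projectivization

namespace Pool.Agent.P.MP_84b56d_ag.CI

universe u

attribute [-simp] aeval_eq_bind₁

section Cone

variable (k : Type*) [Field k] {ι : Type} {A : Type*} [CommRing A] [IsDomain A] [Algebra k A]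

/-- the ideal of the cone over a point -/
noncomputable def cone (z : ι → A) : Ideal (MvPolynomial ι k) :=
  RingHom.ker (aeval (R := k) fun j => Polynomial.X * Polynomial.C (z j))

instance (z : ι → A) : (cone k z).IsPrime := RingHom.ker_isPrime _

variable {k} {z : ι → A}

omit [IsDomain A] in
theorem cone_hom {g : MvPolynomial ι k} {n : ℕ} (hg : g.IsHomogeneous n) :
    aeval (fun j => Polynomial.X * Polynomial.C (z j)) g =
      Polynomial.X ^ n * Polynomial.C (aeval z g) := by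
  rw [aeval_mul_hom hg]
  exact congrArg _ (aeval_map' z g)

theorem mem_cone {g : MvPolynomial ι k} {n : ℕ} (hg : g.IsHomogeneous n) :
    g ∈ cone k z ↔ aeval z g = 0 := by
  rw [cone, RingHom.mem_ker, cone_hom hg, mul_eq_zero, Polynomial.C_eq_zero,
    or_iff_right (pow_ne_zero _ Polynomial.X_ne_zero)]

omit [IsDomain A] in
theorem cone_sub {g : MvPolynomial ι k} (hg : g ∈ cone k z) {S : Type*} [CommRing S] [Algebra k S]
    [Algebra A S] [IsScalarTower k A S] (s : S) :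
    aeval (fun j => s * algebraMap A S (z j)) g = 0 := by
  have := congrArg ((Polynomial.aeval s).restrictScalars k) (RingHom.mem_ker.1 hg)
  rw [comp_aeval_apply, map_zero] at this
  simpa only [AlgHom.coe_restrictScalars', map_mul, Polynomial.aeval_X, Polynomial.aeval_C]
    using this

omit [IsDomain A] in
theorem scale_cone {g : MvPolynomial ι k} (hg : g ∈ cone k z) (a : k) : scale a g ∈ cone k z := by
  have := cone_sub hg (algebraMap k (Polynomial A) a * Polynomial.X)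
  rw [cone, RingHom.mem_ker, scale, aeval_aeval]
  simpa [mul_assoc] using this

theorem td_cone [Finite ι] {I : Type} {f : I → MvPolynomial ι k} {d : I → ℕ}
    (hf : ∀ i, (f i).IsHomogeneous (d i)) (hd : ∀ i, 1 ≤ d i) {T : Finset I} (hT : T.card ≤ 1)
    (h : ∀ i ∈ T, aeval z (f i) = 1) {S : Finset ι}
    (hS : AlgebraicIndependent k fun j : S => z j) : S.card + T.card ≤ td (cone k z) := by
  have := RingHom.ker_isPrime (aeval z : MvPolynomial ι k →ₐ[k] A)
  have h1 := card_le_td hS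
  have h2 : cone k z ≤ RingHom.ker (aeval z : MvPolynomial ι k →ₐ[k] A) := fun g hg => by
    simpa using cone_sub hg (1 : A)
  rcases T.eq_empty_or_nonempty with rfl | ⟨i, hi⟩
  · exact h1.trans (td_le_of_le h2)
  · have h3 := td_lt (lt_of_le_of_ne h2 fun e => ?_)
    · omega
    have h4 : f i - 1 ∈ cone k z := by rw [e, RingHom.mem_ker, map_sub, h i hi, map_one, sub_self]
    rw [cone, RingHom.mem_ker, map_sub, cone_hom (hf i), h i hi] at h4
    simpa [zero_pow (Nat.ne_of_gt (hd i))] using congrArg (Polynomial.eval 0) h4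

end Cone

theorem irr_of_prime {k G : Type*} {σ : Type} [Field k] [TopologicalSpace G] (c : PV k σ G)
    {W : Set G} (h : (c.I W).IsPrime) : IsIrreducible W := by
  refine ⟨Set.nonempty_iff_ne_empty.2 fun e => h.ne_top ((Ideal.eq_top_iff_one _).2 ?_),
    isPreirreducible_iff_isClosed_union_isClosed.2 fun A B hA hB hW => by_contra fun h0 => ?_⟩
  · exact fun y hy => (e.le hy).elim
  simp only [not_or, Set.not_subset] at h0
  obtain ⟨⟨x, h1, h2⟩, y, h3, h4⟩ := h0
  obtain ⟨v, hv⟩ := c.nonempty x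
  obtain ⟨w, hw⟩ := c.nonempty y
  obtain ⟨f, h5, h6⟩ := c.exists_I_ne hA h2 hv
  obtain ⟨g, h7, h8⟩ := c.exists_I_ne hB h4 hw
  refine (h.mem_or_mem (x := f) (y := g) fun z hz u hu => ?_).elim (fun h => h6 (h x h1 v hv))
    fun h => h8 (h y h3 w hw)
  rcases hW hz with h | h
  · rw [map_mul, h5 z h u hu, zero_mul]
  · rw [map_mul, h7 z h u hu, mul_zero]

theorem rk_zero {Ω : Type*} [Field Ω] {T : Set Ω} {V : Type} [Finite V] : rk T (0 : V → Ω) = 0 :=
  Nat.le_zero.1 ((rk_mono (z := (Empty.elim : Empty → Ω)) le_rfl fun _ _ _ _ => by simp).trans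
    (rk_le_card _))

theorem td_upper {k : Type u} [Field k] [IsAlgClosed k] [CharZero k] {I ι M : Type} [Fintype I]
    [Fintype ι] [Fintype M] {f : I → MvPolynomial ι k} {d : I → ℕ}
    (hf : ∀ i, (f i).IsHomogeneous (d i)) (hd : ∀ i, 1 ≤ d i) {l : M → MvPolynomial ι k}
    (hl : ∀ m, ∃ e, 1 ≤ e ∧ (l m).IsHomogeneous e) (hs : Sm k f l) (T : Finset I)
    (hN : Fintype.card M + Fintype.card I ≤ Fintype.card ι) (P : Ideal (MvPolynomial ι k))
    [P.IsPrime] (h0 : P ≤ RingHom.ker (aeval (R := k) (0 : ι → k))) (h1 : ∀ i ∉ T, f i ∈ P) :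
    td P + Fintype.card I ≤ Fintype.card ι + T.card := by
  classical
  have := RingHom.ker_isPrime (aeval (R := k) (0 : ι → k))
  have z0 : ∀ (g : MvPolynomial ι k) n, 1 ≤ n → g.IsHomogeneous n → aeval (0 : ι → k) g = 0 :=
    fun g n hn hg => by simpa [zero_pow (Nat.ne_of_gt hn)] using aeval_mul_hom hg (0 : k) 0
  obtain ⟨P', _, k1, -, k2, k3⟩ := krull P _ h0 (Sum.elim f l) (Sum.forall.2
    ⟨fun i => z0 _ _ (hd i) (hf i), fun m => (hl m).elim fun e he => z0 _ _ he.1 he.2⟩)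
    (T.disjSum Finset.univ)
  obtain ⟨L', _, _, v, v1, v2⟩ := generic P'
  obtain ⟨L, _, _, x, x1, x2⟩ := generic P
  have v3 : td P' ≤ rk (im k L') v := v2 L' (AlgHom.id _ _)
  have x3 : td P ≤ rk (im k L) x := x2 L (AlgHom.id _ _)
  rw [Finset.card_disjSum, Finset.card_univ] at k3
  by_cases hv : v = 0
  · rw [hv, rk_zero] at v3
    omega
  have h2 := surj_gen (Matrix.of fun (i : {i // ¬ i ∈ T}) j => pderiv j (f i))
    (aeval (R := k) v).toRingHom (aeval (R := k) x).toRingHom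
    (fun r hr => (v1 r).2 (k1 ((x1 r).1 hr))) (surj_of_indep ((hs.ext L' v hv (fun i => (v1 _).2 (by
      by_cases hi : i ∈ T
      · exact k2 (Sum.inl i) (by simpa)
      · exact k1 (h1 i hi))) fun m => (v1 _).2 (k2 (Sum.inr m) (by simp))).comp _
        Subtype.val_injective))
  have h3 := rk_jac (T := im k L) (z := x) _ h2 fun D hD i =>
    (der_chain hD x (f i)).symm.trans (by rw [(x1 _).2 (h1 i i.2), map_zero])
  have h4 := T.card_le_univ
  rw [Fintype.card_subtype_compl, Fintype.card_coe] at h3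
  omega

theorem out {k : Type*} [Field k] [CharZero k] {ι : Type} [Fintype ι]
    {t : TopologicalSpace (ℙ k (ι → k))}
    (ht : t = generateFrom {U | ∃ (f : MvPolynomial ι k) (d : ℕ), f.IsHomogeneous d ∧
      U = {x | eval x.rep f ≠ 0}}) (X' Z : Set (ℙ k (ι → k))) (hZ : IsClosed Z)
    (H : ∀ Tb : Finset (MvPolynomial ι k), (∀ g ∈ Tb, ∃ d, g.IsHomogeneous d) →
      (∀ x, x ∈ Z ↔ ∀ g ∈ Tb, eval x.rep g = 0) → ∃ (τ : Type) (G : ι → MvPolynomial τ k),
        Ideal.span (Set.range fun q : Tb × ι => aeval G (q.1.1 * X q.2)) = ⊤ ∧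
        (∀ (a : τ → k) h, Projectivization.mk k (fun j => eval a (G j)) h ∈ X') ∧
        ∀ (g : MvPolynomial ι k) d, g.IsHomogeneous d → aeval G g = 0 →
          ∀ x ∈ X' \ Z, eval x.rep g = 0) :
    ∃ R : Subring k, (∃ s : Finset k, R = Subring.closure (s : Set k)) ∧
      ∃ a b : Finset (MvPolynomial ι R), (∀ f ∈ a, ∃ d, f.IsHomogeneous d) ∧
        (∀ g ∈ b, ∃ d, g.IsHomogeneous d) ∧
        Ideal.span (map R.subtype '' (a : Set (MvPolynomial ι R))) =
          vanishingIdeal k {v | ∃ h : v ≠ 0, Projectivization.mk k v h ∈ X'} ∧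
        (∀ x ∈ X', x ∈ Z ↔ ∀ g ∈ b, eval x.rep (map R.subtype g) = 0) ∧
        X' \ Z ⊆ closure {P | P ∈ X' \ Z ∧
          (∃ (v : ι → R) (h : (fun i => (v i : k)) ≠ 0), Projectivization.mk k _ h = P) ∧
          ∀ s : Ideal R, s.IsPrime → s.height = 1 →
            ∃ (v : ι → R) (h : (fun i => (v i : k)) ≠ 0), Projectivization.mk k _ h = P ∧
              (∃ i, v i ∉ s) ∧ ∃ g ∈ b, eval v g ∉ s} := by
  classical
  obtain ⟨Ta, hTa, hTa'⟩ := proj_gens X'
  obtain ⟨Tb, hTb, hTb'⟩ := proj_gens Z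
  have hZb : ∀ x, x ∈ Z ↔ ∀ g ∈ Tb, eval x.rep g = 0 := fun x => by
    refine ⟨fun hx g hg => ?_, fun h => by_contra fun hx => ?_⟩
    · have : g ∈ Ideal.span (Tb : Set (MvPolynomial ι k)) := Ideal.subset_span hg
      rw [hTb'] at this
      exact this _ ⟨x.rep_nonzero, by rwa [x.mk_rep]⟩
    obtain ⟨f, d, hf, h1, h2⟩ := exists_hom_of_open ht hZ.isOpen_compl hx
    refine h1 (eval_eq_zero_of_span h f (hTb' ▸ ?_))
    rintro v ⟨hv, hvZ⟩
    exact (eval_mk_zero hf rfl).2 (h2 _ (not_not.2 hvZ))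
  obtain ⟨τ, G, g1, g2, g3⟩ := H Tb hTb hZb
  obtain ⟨u, hu⟩ := (Submodule.mem_span_range_iff_exists_fun _).1 ((Ideal.eq_top_iff_one _).1 g1)
  have hE : ((⋃ f ∈ Ta ∪ Tb, Set.range fun m => coeff m f) ∪
      ((⋃ j, Set.range fun m => coeff m (G j)) ∪ ⋃ q, Set.range fun m => coeff m (u q))).Finite :=
    ((Ta ∪ Tb).finite_toSet.biUnion fun f _ => finite_coeffs f).union
      ((Set.finite_iUnion fun _ => finite_coeffs _).union (Set.finite_iUnion fun _ => finite_coeffs _))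
  obtain ⟨R, hR⟩ : ∃ R, R = Subring.closure (hE.toFinset : Set k) := ⟨_, rfl⟩
  have hE' := Subring.subset_closure (s := (hE.toFinset : Set k))
  rw [← hR, hE.coe_toFinset] at hE'
  simp only [Set.union_subset_iff, Set.iUnion_subset_iff, Set.range_subset_iff,
    Finset.mem_union] at hE'
  obtain ⟨a, ha, ha'⟩ := lift_gens R Ta hTa fun f hf => hE'.1 f (Or.inl hf)
  obtain ⟨b, hb, hb'⟩ := lift_gens R Tb hTb fun f hf => hE'.1 f (Or.inr hf)
  refine ⟨R, ⟨_, hR⟩, a, b, ha, hb, ha' ▸ hTa', fun x _ => ?_, fun x hx => by_contra fun hcon => ?_⟩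
  · rw [hZb]
    refine ⟨fun h g hg => h _ (Finset.mem_coe.1 (hb' ▸ Set.mem_image_of_mem _ hg)), fun h g hg => ?_⟩
    obtain ⟨g', hg', rfl⟩ : g ∈ map R.subtype '' (b : Set _) := hb' ▸ hg
    exact h g' hg'
  obtain ⟨h, d, h1, h2, h3⟩ := exists_hom_of_open ht isClosed_closure.isOpen_compl hcon
  refine h2 (g3 h d h1 (funext_set (fun _ => Set.range (Nat.cast : ℕ → k))
    (fun _ => Set.infinite_range_of_injective Nat.cast_injective) fun y hy => ?_) x hx)
  have hy' : ∀ l, y l ∈ R := fun l => by obtain ⟨n, hn⟩ := hy l trivial; exact hn ▸ natCast_mem R n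
  let v : ι → R := fun j => ⟨eval y (G j), eval_mem (hE'.2.1 j) hy'⟩
  have key : ∀ s : Ideal R, s ≠ ⊤ → ∃ j, ∃ g ∈ b, eval v g * v j ∉ s := fun s hs => by
    by_contra h
    push Not at h
    choose g' hg' e using fun q : Tb => (hb' ▸ q.2 : q.1 ∈ map R.subtype '' (b : Set _))
    refine hs ((Ideal.eq_top_iff_one _).2 ?_)
    have : (1 : R) = ∑ q : Tb × ι, ⟨_, eval_mem (hE'.2.2 q) hy'⟩ * (eval v (g' q.1) * v q.2) := by
      refine Subtype.ext ((map_one (eval y)).symm.trans ?_)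
      rw [← hu, map_sum, AddSubmonoidClass.coe_finsetSum]
      refine Finset.sum_congr rfl fun q _ => ?_
      simp only [smul_eq_mul, map_mul, eval_aeval', ← e, aeval_X]
      exact congrArg _ (congrArg₂ _ (map_eval R.subtype v _).symm rfl)
    exact this ▸ s.sum_mem fun q _ => s.mul_mem_left _ (h _ _ (hg' _))
  obtain ⟨j, g, hg, h4⟩ := key ⊥ bot_ne_top
  have h5 : (fun i => (v i : k)) ≠ 0 := fun h =>
    right_ne_zero_of_mul (mt Ideal.mem_bot.2 h4) (Subtype.ext (congrFun h j))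
  rw [eval_aeval', map_zero]
  refine (eval_mk_zero h1 (h := h5) rfl).2 (h3 _ (not_not.2 (subset_closure
    ⟨⟨g2 y h5, fun h => ?_⟩, ⟨v, h5, rfl⟩, fun s hs _ => ?_⟩)))
  · obtain ⟨e, he⟩ := hb g hg
    exact left_ne_zero_of_mul (mt Ideal.mem_bot.2 h4) (Subtype.ext ((map_eval R.subtype v g).trans
      ((eval_mk_zero (he.map _) rfl).2 ((hZb _).1 h _
        (Finset.mem_coe.1 (hb' ▸ Set.mem_image_of_mem _ hg))))))
  · obtain ⟨j, g, hg, h6⟩ := key s hs.ne_top
    exact ⟨v, h5, rfl, ⟨j, fun h => h6 (s.mul_mem_left _ h)⟩, g, hg,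
      fun h => h6 (s.mul_mem_right _ h)⟩

theorem bridge (I : Type) [Fintype I] [DecidableEq I] (D : ℕ) : ∃ n₀ : ℕ,
    ∀ (k : Type u) [Field k] [IsAlgClosed k] [CharZero k] (ι M : Type) [Fintype ι] [Fintype M]
      (f : I → MvPolynomial ι k) (d : I → ℕ) (l : M → MvPolynomial ι k) (T : Finset I),
      Fintype.card M + n₀ ≤ Fintype.card ι →
      (∀ i, (f i).IsHomogeneous (d i)) → (∀ i, 1 ≤ d i) → (∀ i, d i ≤ D) →
      (∀ m, ∃ e, 1 ≤ e ∧ (l m).IsHomogeneous e) → Sm k f l → T.card ≤ 1 →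
      ∀ (t : TopologicalSpace (ℙ k (ι → k))),
      t = generateFrom {U | ∃ (f : MvPolynomial ι k) (d : ℕ), f.IsHomogeneous d ∧
        U = {x | eval x.rep f ≠ 0}} → ∀ X' B Z : Set (ℙ k (ι → k)),
      X' = {x | ∀ i ∉ T, eval x.rep (f i) = 0} → B = {x ∈ X' | ∃ i ∈ T, eval x.rep (f i) = 0} →
      IsIrreducible (X' \ B) → Z ⊆ X' \ B → IsClosed (Subtype.val ⁻¹' Z : Set ↥(X' \ B)) →
      (∀ W : IrreducibleCloseds ↥(X' \ B), (W : Set ↥(X' \ B)) ⊆ Subtype.val ⁻¹' Z →
        2 ≤ Order.coheight W) →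
      IsClosed (B ∪ Z) ∧
      ∀ Tb : Finset (MvPolynomial ι k), (∀ g ∈ Tb, ∃ d, g.IsHomogeneous d) →
      (∀ x, x ∈ B ∪ Z ↔ ∀ g ∈ Tb, eval x.rep g = 0) → ∃ (τ : Type) (G : ι → MvPolynomial τ k),
        Ideal.span (Set.range fun q : Tb × ι => aeval G (q.1.1 * X q.2)) = ⊤ ∧
        (∀ (a : τ → k) h, Projectivization.mk k (fun j => eval a (G j)) h ∈ X') ∧
        ∀ (g : MvPolynomial ι k) d, g.IsHomogeneous d → aeval G g = 0 →
          ∀ x ∈ X' \ (B ∪ Z), eval x.rep g = 0 := by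
  obtain ⟨n₀, H⟩ := alg.{u} I D
  refine ⟨n₀ + (Fintype.card I + 2), ?_⟩
  intro k _ _ _ ι M _ _ f d l T hN hf hd hD hl hs hT t ht X' B Z hX hB hY hZ1 hZ2 hZ3
  have mem : ∀ x, x ∈ X' \ B ↔ ∀ i, eval x.rep (f i) = 0 ↔ i ∉ T := fun x => by
    simp only [hB, hX, Set.mem_sdiff, Set.mem_ofPred_eq]
    grind
  have cl : ∀ i, IsClosed {x : ℙ k (ι → k) | eval x.rep (f i) = 0} := fun i =>
    isOpen_compl_iff.1 (ht ▸ isOpen_generateFrom_of_mem ⟨f i, d i, hf i, rfl⟩)
  refine ⟨?_, fun Tb hTb hZb => ?_⟩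
  · obtain ⟨C, hC, h⟩ := isClosed_induced_iff.1 hZ2
    have h1 : B ∪ Z = B ∪ X' ∩ C := by
      ext x
      by_cases hx : x ∈ B
      · simp [hx]
      · simp only [Set.mem_union, hx, false_or]
        exact ⟨fun h' => ⟨(hZ1 h').1, (Set.ext_iff.1 h ⟨x, hZ1 h'⟩).2 h'⟩,
          fun h' => (Set.ext_iff.1 h ⟨x, h'.1, hx⟩).1 h'.2⟩
    have h2 : IsClosed X' := by
      simpa only [hX, Set.ofPred_forall] using isClosed_iInter fun i => isClosed_iInter fun _ => cl i
    refine h1 ▸ IsClosed.union (hB ▸ h2.inter ?_) (h2.inter hC)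
    convert isClosed_biUnion_finset (s := T) fun i _ => cl i using 1
    ext x
    simp only [Set.mem_iUnion, exists_prop]
    rfl
  let cY := (projPV ht).comap (Subtype.val : ↥(X' \ B) → _) IsEmbedding.subtypeVal
  have := Subtype.irreducibleSpace hY
  have hU := IrreducibleSpace.isIrreducible_univ ↥(X' \ B)
  have := cY.isPrime_I hU
  obtain ⟨y₀, hy₀⟩ := hY.nonempty
  have u1 := td_upper hf hd hl hs T (by omega) (cY.I Set.univ) (fun g hg => by
      have := poly_eq_zero_of_ne (ray y₀.rep g) fun a ha => (eval_ray _ _ _).trans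
        (hg ⟨y₀, hy₀⟩ trivial _ (cY.smul_mem ⟨y₀, hy₀⟩ _ (rep_mem y₀) a ha))
      have := (eval_ray y₀.rep g 0).symm.trans (congrArg (Polynomial.eval 0) this)
      rwa [zero_smul, Polynomial.eval_zero] at this)
    fun i hi y _ v hv => (eval_mk_zero (hf i) hv.2).2 (((mem _).1 y.2 i).2 hi)
  have key : ∀ {A : Type u} [CommRing A] [IsDomain A] [Algebra k A] (z : ι → A), z ≠ 0 →
      (∀ i, aeval z (f i - C (if i ∈ T then 1 else 0)) = 0) → (∀ i ∈ T, aeval z (f i) = 1) ∧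
      cY.I {y | ∀ g ∈ (cone k z : Set _), ∀ v ∈ cY.rep y, eval v g = 0} = cone k z := by
    intro A _ _ _ z hz h
    obtain ⟨j, hj⟩ := Function.ne_iff.1 hz
    have h1 : ∀ i ∈ T, aeval z (f i) = 1 := fun i hi => by simpa [hi, sub_eq_zero] using h i
    refine ⟨h1, le_antisymm (fun g hg => ?_) fun g hg y hy => hy g hg⟩
    have h2 : g * (X j * ∏ i ∈ T, f i) ∈ cone k z := mem_of_vanish _ fun v hv => by
      by_contra hne
      simp only [map_mul, map_prod, eval_X, mul_eq_zero, not_or, Finset.prod_eq_zero_iff,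
        not_exists, not_and] at hne
      have h3 : v ≠ 0 := fun h => hne.2.1 (congrFun h j)
      refine hne.1 (hg ⟨Projectivization.mk k v h3, (mem _).2 fun i => ?_⟩ (fun g' hg' w hw => ?_)
        v ⟨h3, rfl⟩)
      · rw [← eval_mk_zero (hf i) rfl]
        exact ⟨fun h hi => hne.2.2 i hi h,
          fun hi => hv _ ((mem_cone (hf i)).2 (by simpa [hi] using h i))⟩
      · obtain ⟨a, rfl⟩ := (projRaw k ι).exists_smul _ v ⟨h3, rfl⟩ w hw
        exact (eval_scale a g' v).symm.trans (hv _ (scale_cone hg' a))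
    refine ((inferInstance : (cone k z).IsPrime).mem_or_mem h2).resolve_right fun h3 => hj ?_
    simpa [Finset.prod_eq_one h1] using cone_sub h3 (1 : A)
  obtain ⟨σ, τ, _, G, g1, g2, -, S, g3, g4⟩ := H k ι M (Tb × ι) f d l
    (fun i => if i ∈ T then 1 else 0) (fun q => q.1.1 * X q.2) (by omega) hf hd hD hl hs
    (by
      have h1 := (mem _).1 hy₀
      rcases T.eq_empty_or_nonempty with rfl | ⟨i, hi⟩
      · exact ⟨y₀.rep, by simpa using h1⟩
      · obtain ⟨a, ha⟩ := IsAlgClosed.exists_pow_nat_eq (eval y₀.rep (f i))⁻¹ (hd i)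
        refine ⟨a • y₀.rep, fun i' => (eval_smul_of_hom (hf i') _ _).trans ?_⟩
        split_ifs with h
        · rw [Finset.card_le_one.1 hT _ h _ hi, ha, inv_mul_cancel₀ fun h => (h1 i).1 h hi]
        · rw [(h1 i').2 h, mul_zero])
    fun Ω _ _ z hz => by
      by_cases h0 : z = 0
      · rw [h0, rk_zero]
        omega
      obtain ⟨h1, h2⟩ := key z h0 fun i => hz (Sum.inl i)
      obtain ⟨S, h3, h4⟩ := exists_indep (F := k) z
      have h5 := td_cone hf hd hT h1 h4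
      obtain ⟨j, hj⟩ := Function.ne_iff.1 h0
      obtain ⟨W₁, W₂, h6, h7⟩ := (Order.one_lt_height_iff (α := (IrreducibleCloseds _)ᵒᵈ)).1
        (lt_of_lt_of_le (by norm_num) (hZ3 ⟨_, irr_of_prime cY (h2.symm ▸ inferInstance),
          cY.isClosed_zero (cone k z : Set _)⟩ fun y hy =>
            ((hZb y).2 fun g hg => (hTb g hg).elim fun e he => hy g ((mem_cone he).2 (by
              simpa [show z j ≠ 0 from hj] using hz (Sum.inr (⟨g, hg⟩, j)))) _
                (rep_mem _)).resolve_left y.2.2))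
      have hlt : ∀ V V' : IrreducibleCloseds ↥(X' \ B), V < V' → td (cY.I V) < td (cY.I V') :=
        fun V V' h => cY.td_lt_td V.isClosed V.isIrreducible V'.isIrreducible h
      have h8 := hlt _ _ h7
      have h9 := hlt _ _ h6
      have h10 := cY.td_le_td (IrreducibleCloseds.isIrreducible W₂) hU (Set.subset_univ _)
      have h11 : td (cone k z) + 2 ≤ td (cY.I Set.univ) :=
        h2 ▸ Nat.succ_le_of_lt (lt_of_lt_of_le (lt_of_le_of_lt (Nat.succ_le_of_lt h8) h9) h10)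
      omega
  obtain ⟨h1, h2⟩ := key G (fun h => bot_ne_top ((Ideal.span_eq_bot.2
    (Set.forall_mem_range.2 fun q => by simp [h])).symm.trans g2)) g1
  have h3 := td_cone hf hd hT h1 g4
  have h4 : cY.I Set.univ = cone k G := by_contra fun h => by
    have := td_lt (lt_of_le_of_ne ((cY.I_anti (Set.subset_univ _)).trans h2.le) h)
    omega
  refine ⟨τ, G, g2, fun a h => hX ▸ fun i hi => (eval_mk_zero (hf i) rfl).1 ?_,
    fun g e hg h x hx => (h4.ge ((mem_cone hg).2 h)) ⟨x, hx.1, fun h => hx.2 (Or.inl h)⟩ trivial _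
      (rep_mem x)⟩
  have := congrArg (eval a) (g1 i)
  rw [eval_aeval'] at this
  simpa [hi] using this

end Pool.Agent.P.MP_84b56d_ag.CI
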