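import Mathlib

/-! Complete intersections of low degree: definitions. Transcendence degrees are measured by
derivations. -/

open MvPolynomial

namespace Pool.Agent.P.MP_84b56d_ag.CI

universe u

section Rank

variable {Ω : Type*} [Field Ω]

/-- values of a derivation on a family -/
def ev {V : Type} (z : V → Ω) : Derivation ℤ Ω Ω →ₗ[Ω] (V → Ω) where
  toFun D v := D (z v)
  map_add' _ _ := rfl
  map_smul' _ _ := rfl

/-- the derivations that vanish on `T` -/
def kill (T : Set Ω) : Submodule Ω (Derivation ℤ Ω Ω) where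
  carrier := {D | ∀ t ∈ T, D t = 0}
  zero_mem' _ _ := rfl
  add_mem' ha hb t ht := by simp [ha t ht, hb t ht]
  smul_mem' _ _ hb t ht := by simp [hb t ht]

/-- the transcendence degree of `z` over the field generated by `T` -/
noncomputable def rk (T : Set Ω) {V : Type} (z : V → Ω) : ℕ :=
  Module.finrank Ω ((kill T).map (ev z))

/-- the image of a subfield -/
abbrev im (F Ω : Type*) [Field F] [Field Ω] [Algebra F Ω] : Set Ω := Set.range (algebraMap F Ω)

end Rank

/-- all monomials of `p` have degree below `e` -/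
def Dg {σ R : Type*} [CommSemiring R] (p : MvPolynomial σ R) (e : ℕ) : Prop :=
  ∀ α, coeff α p ≠ 0 → α.degree < e

/-- the monomial `α` in place `i` is a combination of the columns of `a` -/
def Hit {I J κ R : Type*} [CommSemiring R] [Fintype J] [DecidableEq I]
    (a : I → J → MvPolynomial κ R) (i : I) (α : κ →₀ ℕ) : Prop :=
  ∃ w : J → R, ∀ i', ∑ j, C (w j) * a i' j = if i' = i then monomial α 1 else 0

/-- the columns of `a` span the tuples of polynomials of degrees below `d` -/
def Good {I J κ R : Type*} [CommSemiring R] [Fintype J] [DecidableEq I]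
    (a : I → J → MvPolynomial κ R) (d : I → ℕ) : Prop :=
  ∀ i α, α.degree < d i → Hit a i α

/-- the zero set of `P` has codimension at least `e` -/
def Dim (F : Type u) [Field F] {ι : Type} {β : Type*} [Fintype ι] (P : β → MvPolynomial ι F)
    (e : ℕ) : Prop :=
  ∀ (Ω : Type u) [Field Ω] [Algebra F Ω] (z : ι → Ω), (∀ m, aeval z (P m) = 0) →
    rk (im F Ω) z + e ≤ Fintype.card ι

/-- a polynomial map over `F` into `f = 0` that avoids `b = 0`, sends the origin to `σ` and has
image of codimension at most `e` over `F₀` -/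
def Par (F₀ F : Type*) [Field F₀] [CommRing F] [Algebra F₀ F] {ι : Type} {I β : Type*} [Fintype ι]
    (f : I → MvPolynomial ι F₀) (b : β → MvPolynomial ι F₀) (σ : ι → F) (e : ℕ) : Prop :=
  ∃ (τ : Type) (_ : Finite τ) (G : ι → MvPolynomial τ F), (∀ i, aeval G (f i) = 0) ∧
    Ideal.span (Set.range fun g => aeval G (b g)) = ⊤ ∧ (∀ j, constantCoeff (G j) = σ j) ∧
    ∃ S : Finset ι, Fintype.card ι ≤ S.card + e ∧ AlgebraicIndependent F₀ fun j : S => G j

/-- the number of positive degrees -/
def nz {I : Type} [Fintype I] (d : I → ℕ) : ℕ := Fintype.card {i // 1 ≤ d i}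

/-- the number of degrees equal to one -/
def c1 {I : Type} [Fintype I] (d : I → ℕ) : ℕ := Fintype.card {i // d i = 1}

/-- the inductive claim -/
def Core (I κ : Type) [Fintype I] [DecidableEq I] [Fintype κ] (D : ℕ) : Prop :=
  ∀ (F : Type u) [Field F] [CharZero F] (ι : Type) [Fintype ι] (β : Type u)
    (f : I → MvPolynomial ι F) (d : I → ℕ) (b : β → MvPolynomial ι F) (L : ι → MvPolynomial κ F),
    (∀ i, d i ≤ D) → (∀ i, Dg (f i) (d i + 1)) → (∀ j, Dg (L j) 2) → (∀ i, aeval L (f i) = 0) →
    Good (fun i j => aeval L (pderiv j (f i))) d → Dim F (Sum.elim f b) (nz d + 2) →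
    Dim F (fun g => aeval L (b g)) 2 → (∃ g, constantCoeff (aeval L (b g)) ≠ 0) →
    Par F F f b (fun j => constantCoeff (L j)) (nz d)

/-- an affine frame with columns `c` and origin `p` -/
noncomputable def frame {J κ R : Type*} [CommSemiring R] [Fintype κ] (c : J × κ → R) (p : J → R)
    (j : J) : MvPolynomial κ R := C (p j) + ∑ l, C (c (j, l)) * X l

/-- the graph frame -/
noncomputable def graph {J κ R : Type*} [CommSemiring R] [Fintype κ] (c : J × κ → R)
    (p : κ ⊕ J → R) : κ ⊕ J → MvPolynomial κ R :=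
  Sum.elim (fun l => C (p (Sum.inl l)) + X l) (frame c fun j => p (Sum.inr j))

/-- pairs of an index and a monomial of degree below `d i` -/
abbrev Mon {I : Type} (κ : Type) (d : I → ℕ) : Type := {e : I × (κ →₀ ℕ) // e.2.degree < d e.1}

instance {I κ : Type} [Finite I] [Finite κ] (d : I → ℕ) : Finite (Mon κ d) :=
  Set.Finite.subset (Set.finite_iUnion fun i => (Finsupp.finite_of_degree_lt (σ := κ) (d i)).image
    (Prod.mk i)) fun e he => Set.mem_iUnion.2 ⟨e.1, e.2, he, rfl⟩

end Pool.Agent.P.MP_84b56d_ag.CI
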