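import Pool.Agent.P.MP_84b56d_ag.CI.StepA

/-! Transfer between fields, specialisation, and the finiteness of bad frames. -/

open MvPolynomial

namespace Pool.Agent.P.MP_84b56d_ag.CI

universe u

attribute [-simp] aeval_eq_bind₁

variable {k : Type*} [Field k]

theorem nst [IsAlgClosed k] {σ A : Type*} [Finite σ] [CommRing A] [IsDomain A] [Algebra k A]
    (z : σ → A) {P : MvPolynomial σ k}
    (h : ∀ x : σ → k, (∀ g : MvPolynomial σ k, aeval z g = 0 → aeval x g = 0) → aeval x P = 0) :
    aeval z P = 0 := by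
  have := RingHom.ker_isPrime (aeval z : MvPolynomial σ k →ₐ[k] A)
  change P ∈ RingHom.ker (aeval z : MvPolynomial σ k →ₐ[k] A)
  rw [← IsPrime.vanishingIdeal_zeroLocus (K := k) (RingHom.ker _), mem_vanishingIdeal_iff]
  exact fun x hx => h x hx

theorem jac {F Ω : Type*} {τ : Type} [Field F] [Fintype τ] [Field Ω] [Algebra F Ω]
    [Algebra (MvPolynomial τ F) Ω] [IsScalarTower F (MvPolynomial τ F) Ω] {D : Derivation ℤ Ω Ω}
    (hD : D ∈ kill (im F Ω)) (q : MvPolynomial τ F) :
    D (algebraMap _ Ω q) =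
      ∑ t, algebraMap _ Ω (pderiv t q) * D (algebraMap (MvPolynomial τ F) Ω (X t)) := by
  simpa only [aeval_map', aeval_X_left_apply] using
    der_chain hD (fun t => algebraMap (MvPolynomial τ F) Ω (X t)) q

theorem map_jac {R F S τ : Type*} [CommRing R] [CommRing F] [Fintype S] [DecidableEq S]
    (ψ : R →+* F) (G : S → MvPolynomial τ R) (c : S → τ) :
    map ψ (Matrix.of fun s s' : S => pderiv (c s') (G s)).det =
      ((Matrix.of fun (s : S) t => pderiv t (map ψ (G s))).submatrix id c).det := by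
  rw [RingHom.map_det]
  congr 1
  exact Matrix.ext fun s s' => (pderiv_map (φ := ψ) (f := G s) (i := c s')).symm

theorem Par.spec [IsAlgClosed k] [CharZero k] {L : Type*} [Field L] [Algebra k L] {ι : Type}
    [Fintype ι] {I β : Type*} {f : I → MvPolynomial ι k} {b : β → MvPolynomial ι k} {σ : ι → L}
    {e : ℕ} (h : Par L L (fun i => map (algebraMap k L) (f i)) (fun g => map (algebraMap k L) (b g))
      σ e) : ∃ σ', Par k k f b σ' e := by
  classical
  have : CharZero L := charZero_of_injective_algebraMap (algebraMap k L).injective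
  obtain ⟨τ, _, G, h1, h2, -, S, h4, h5⟩ := h
  have := Fintype.ofFinite τ
  simp only [aeval_map_algebraMap] at h1 h2
  obtain ⟨u, hu⟩ := Finsupp.mem_span_range_iff_exists_finsupp.1 ((Ideal.eq_top_iff_one _).1 h2)
  obtain ⟨c, hc⟩ := minor_of_surj (M := (Matrix.of fun (s : S) t => pderiv t (G s)).map
      (algebraMap _ (FractionRing (MvPolynomial τ L)))) fun a => by
    obtain ⟨D, hD, hD'⟩ := exists_der (h5.map' (f := IsScalarTower.toAlgHom L _
      (FractionRing (MvPolynomial τ L))) (IsFractionRing.injective _ _)) a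
    exact ⟨_, funext fun s => (jac hD (G s)).symm.trans (hD' s)⟩
  rw [Matrix.submatrix_map, ← RingHom.mapMatrix_apply, ← RingHom.map_det] at hc
  obtain ⟨α, hα⟩ := ne_zero_iff.1 ((map_ne_zero_iff _ (IsFractionRing.injective _ _)).1 hc)
  let W := (Finset.univ.biUnion fun j => (G j).coeffs) ∪ u.support.biUnion fun g => (u g).coeffs
  let φ : MvPolynomial W k →ₐ[k] L := aeval Subtype.val
  have lift : ∀ q : MvPolynomial τ L, q.coeffs ⊆ W →
      ∃ q', map (φ : MvPolynomial W k →+* L) q' = q := fun q hq =>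
    mem_range_map_iff_coeffs_subset.2 fun x hx => ⟨X (⟨x, hq hx⟩ : W), aeval_X _ _⟩
  choose G' hG' using fun j => lift (G j) ((Finset.subset_biUnion_of_mem (fun j => (G j).coeffs)
    (Finset.mem_univ j)).trans Finset.subset_union_left)
  choose! u' hu' using fun g (hg : g ∈ u.support) => lift (u g)
    ((Finset.subset_biUnion_of_mem (fun g => (u g).coeffs) hg).trans Finset.subset_union_right)
  obtain ⟨x, hx, hx'⟩ : ∃ x : W → k, (∀ g, φ g = 0 → aeval x g = 0) ∧
      aeval x (coeff α (Matrix.of fun s s' : S => pderiv (c s') (G' s)).det) ≠ 0 := by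
    by_contra h
    push Not at h
    refine hα ?_
    simp only [← hG', ← map_jac, coeff_map]
    exact nst _ h
  let ψ : MvPolynomial W k →ₐ[k] k := aeval x
  have tr : ∀ q : MvPolynomial τ (MvPolynomial W k), map (φ : MvPolynomial W k →+* L) q = 0 →
      map (ψ : MvPolynomial W k →+* k) q = 0 := fun q hq => MvPolynomial.ext _ _ fun β => by
    rw [coeff_map]
    exact hx _ ((coeff_map _ q β).symm.trans (congrArg (coeff β) hq))
  let θ := IsScalarTower.toAlgHom k (MvPolynomial τ k) (FractionRing (MvPolynomial τ k))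
  obtain ⟨S', r1, r2⟩ := exists_indep (F := k) fun j => θ (map (ψ : MvPolynomial W k →+* k) (G' j))
  refine ⟨_, τ, ‹_›, fun j => map (ψ : MvPolynomial W k →+* k) (G' j), fun i => ?_, ?_, fun _ => rfl, S',
    h4.trans (Nat.add_le_add_right (le_trans ?_ r1) _), indep_of_comp θ r2 fun _ => rfl⟩
  · rw [← map_aeval']
    exact tr _ (by rw [map_aeval', funext hG', h1])
  · have := tr (∑ g ∈ u.support, u' g * aeval G' (b g) - 1) (by
      rw [map_sub, map_one, map_sum, sub_eq_zero, ← hu]
      exact Finset.sum_congr rfl fun g hg => by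
        rw [map_mul, hu' g hg, map_aeval', funext hG']
        rfl)
    rw [map_sub, map_one, map_sum, sub_eq_zero] at this
    rw [Ideal.eq_top_iff_one, ← this]
    refine Ideal.sum_mem _ fun g _ => ?_
    rw [map_mul, map_aeval']
    exact Ideal.mul_mem_left _ _ (Ideal.subset_span ⟨g, rfl⟩)
  · have h6 := surj_of_minor (c := c) (M := (Matrix.of fun (s : S) t =>
        pderiv t (map (ψ : MvPolynomial W k →+* k) (G' s))).map (algebraMap _ (FractionRing (MvPolynomial τ k)))) (by
      rw [Matrix.submatrix_map, ← RingHom.mapMatrix_apply, ← RingHom.map_det, ← map_jac,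
        map_ne_zero_iff _ (IsFractionRing.injective _ _)]
      exact fun h => hx' ((coeff_map _ _ α).symm.trans (congrArg (coeff α) h)))
    refine le_trans ?_ (rk_mono (y := fun s : S => θ (map (ψ : MvPolynomial W k →+* k) (G' s))) le_rfl
      fun _ _ h s => h s)
    have : (kill (im k _)).map (ev fun s : S => θ (map (ψ : MvPolynomial W k →+* k) (G' s))) = ⊤ :=
      eq_top_iff.2 fun a _ => by
        obtain ⟨δ, rfl⟩ := h6 a
        obtain ⟨D, hD, hD'⟩ := exists_der (indep_X (IsFractionRing.injective (MvPolynomial τ k)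
          (FractionRing (MvPolynomial τ k)))) δ
        exact ⟨D, hD, funext fun s => (jac hD _).trans (by simp only [hD']; rfl)⟩
    rw [rk, this]
    simp

variable {I ι κ M : Type} [Fintype I] [Fintype ι] [Fintype κ]

/-- the gradients are independent on the cone `f = l = 0` outside the origin -/
def Sm (Ω : Type*) [Field Ω] [Algebra k Ω] (f : I → MvPolynomial ι k) (l : M → MvPolynomial ι k) :
    Prop :=
  ∀ v : ι → Ω, v ≠ 0 → (∀ i, aeval v (f i) = 0) → (∀ m, aeval v (l m) = 0) →
    LinearIndependent Ω fun i j => aeval v (pderiv j (f i))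

theorem Sm.ext [IsAlgClosed k] {f : I → MvPolynomial ι k} {l : M → MvPolynomial ι k}
    (h : Sm k f l) (Ω : Type*) [Field Ω] [Algebra k Ω] : Sm Ω f l := by
  intro v hv h1 h2
  obtain ⟨j, hj⟩ := Function.ne_iff.1 hv
  refine Fintype.linearIndependent_iff.2 fun γ hγ i => ?_
  have := nst (k := k) (Sum.elim v γ) (P := X (Sum.inl j) * X (Sum.inr i)) fun x hx => by
    by_cases h0 : (x ∘ Sum.inl) = 0
    · simp [show x (Sum.inl j) = 0 from congrFun h0 j]
    have h3 : ∀ q : MvPolynomial ι k, aeval v q = 0 → aeval (x ∘ Sum.inl) q = 0 := fun q hq => by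
      rw [← aeval_rename]
      exact hx _ (by rwa [aeval_rename])
    have h4 := Fintype.linearIndependent_iff.1 (h _ h0 (fun i => h3 _ (h1 i)) fun m => h3 _ (h2 m))
      (fun i => x (Sum.inr i)) (funext fun j => by
        have := hx (∑ i, X (Sum.inr i) * rename Sum.inl (pderiv j (f i)))
          (by simpa [aeval_rename] using congrFun hγ j)
        simpa [eval_rename] using this) i
    simp [h4]
  simpa [show v j ≠ 0 from hj] using this

theorem aeval_mul_hom {S σ : Type*} [CommRing S] [Algebra k S] {q : MvPolynomial σ k} {n : ℕ}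
    (h : q.IsHomogeneous n) (s : S) (x : σ → S) :
    aeval (fun j => s * x j) q = s ^ n * aeval x q := by
  rw [aeval_def, aeval_def, eval₂_eq, eval₂_eq, Finset.mul_sum]
  refine Finset.sum_congr rfl fun α hα => ?_
  rw [← h (mem_support_iff.1 hα), ← show Finsupp.degree α = Finsupp.weight 1 α from
    congr($Finsupp.degree_eq_weight_one α), Finsupp.degree_apply]
  simp only [mul_pow, Finset.prod_mul_distrib, Finset.prod_pow_eq_pow_sum]
  ring

/-- an affine form -/
noncomputable def xi (ξ : κ → k) : MvPolynomial κ k := ∑ l, ξ l • X l + 1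

theorem exists_xi [CharZero k] {L E : Type*} [Field L] [Algebra k L] (s : Finset E)
    (α : E → κ →₀ ℕ) (θ : E → L) {n : ℕ} (h1 : ∀ e ∈ s, (α e).degree ≤ n) (h2 : Set.InjOn α s)
    {e₀ : E} (h3 : e₀ ∈ s) (h4 : θ e₀ ≠ 0) :
    ∃ ξ : κ → k, ∑ e ∈ s, θ e * algebraMap k L (coeff (α e) (xi ξ ^ n)) ≠ 0 := by
  classical
  have : CharZero L := charZero_of_injective_algebraMap (algebraMap k L).injective
  by_contra h
  push Not at h
  have h5 : ∑ e ∈ s, monomial (α e) (θ e * ((α e).multinomial * n.choose (α e).degree)) = 0 :=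
    funext_set (fun _ => im k L) (fun _ => Set.infinite_range_of_injective
      (algebraMap k L).injective) fun x hx => by
      choose ξ hξ using fun l => hx l trivial
      rw [map_zero, ← h ξ, map_sum]
      refine Finset.sum_congr rfl fun e he => ?_
      rw [xi, add_pow, coeff_sum, Finset.sum_eq_single (α e).degree (fun m _ hm => ?_)
        fun h => (h (Finset.mem_range.2 (Nat.lt_succ_of_le (h1 e he)))).elim]
      all_goals rw [one_pow, mul_one, ← map_natCast C, mul_comm _ (C _), coeff_C_mul,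
        coeff_linearCombination_X_pow_of_fintype]
      · rw [if_pos (by rfl), eval_monomial]
        simp only [map_mul, map_natCast, Finsupp.prod, map_prod, map_pow, hξ]
        ring
      · rw [if_neg (by exact hm.symm), mul_zero]
  have h6 := congrArg (coeff (α e₀)) h5
  rw [coeff_sum, Finset.sum_eq_single e₀ (fun e he hne => by
    rw [coeff_monomial, if_neg fun h => hne (h2 he h3 h)]) (fun h => (h h3).elim), coeff_monomial,
    if_pos rfl] at h6
  exact mul_ne_zero h4 (mul_ne_zero (Nat.cast_ne_zero.2 (Nat.multinomial_pos _ _).ne')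
    (Nat.cast_ne_zero.2 (Nat.choose_pos (h1 _ h3)).ne')) h6

/-- the degenerating relation -/
noncomputable def HH {R : Type*} [CommRing R] [Algebra k R] (f : I → MvPolynomial ι k) (d : I → ℕ)
    [Fintype (Mon κ d)] (ξ : κ → k) (n : ℕ) (θ : Mon κ d → R) (a : ι × κ → R) (ε : R) (v : ι → R)
    (j : ι) : R :=
  ∑ e, ε ^ (n - d e.1.1) * θ e * coeff e.1.2 (aeval (fun j' => C ε * frame a (fun _ => 0) j' +
    map (algebraMap k R) (xi ξ) * C (v j')) (pderiv j (f e.1.1)))

omit [Fintype I] [Fintype ι] in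
theorem map_HH {R R' : Type*} [CommRing R] [Algebra k R] [CommRing R'] [Algebra k R']
    (ψ : R →ₐ[k] R') (f : I → MvPolynomial ι k) (d : I → ℕ) [Fintype (Mon κ d)] (ξ : κ → k) (n : ℕ)
    (θ : Mon κ d → R) (a : ι × κ → R) (ε : R) (v : ι → R) (j : ι) :
    ψ (HH f d ξ n θ a ε v j) =
      HH f d ξ n (fun e => ψ (θ e)) (fun e => ψ (a e)) (ψ ε) (fun e => ψ (v e)) j := by
  simp only [HH, map_sum, map_mul, map_pow]
  refine Finset.sum_congr rfl fun e _ => congrArg _ ?_
  refine (coeff_map (ψ : R →+* R') _ _).symm.trans ?_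
  simp only [map_aeval', map_add, map_mul, map_C, map_frame, map_map, AlgHom.comp_algebraMap,
    map_zero, RingHom.coe_coe]

theorem fin_der [IsAlgClosed k] [CharZero k] {L : Type*} [Field L] [Algebra k L]
    {f : I → MvPolynomial ι k} {d : I → ℕ} [Fintype (Mon κ d)] (hf : ∀ i, (f i).IsHomogeneous (d i))
    (hd : ∀ i, 1 ≤ d i) {l : M → MvPolynomial ι k} (hl : ∀ m, ∃ e, 1 ≤ e ∧ (l m).IsHomogeneous e)
    (hs : Sm k f l) {c : I → k} (A : ι × κ → L) (p : ι → L)
    (hp : ∀ i, aeval p (f i) = algebraMap k L (c i)) (θ : Mon κ d → L) (hθ : ∃ e, θ e ≠ 0)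
    (h0 : ∀ j, ∑ e, θ e * coeff e.1.2 (aeval (frame A p) (pderiv j (f e.1.1))) = 0) :
    ∃ ξ : κ → k, ∀ D ∈ kill (im k L), (∀ e, D (θ e) = 0) →
      (∀ v, D (A v - algebraMap k L (ξ v.2) * p v.1) = 0) → (∀ m, D (aeval p (l m)) = 0) →
      ∀ j, D (p j) = 0 := by
  classical
  have : CharZero L := charZero_of_injective_algebraMap (algebraMap k L).injective
  obtain ⟨e₀, h1, h2⟩ := (Finset.univ.filter fun e => θ e ≠ 0).exists_max_image (fun e => d e.1.1)
    (by simpa [Finset.Nonempty] using hθ)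
  simp only [Finset.mem_filter, Finset.mem_univ, true_and] at h1 h2
  obtain ⟨ξ, hξ⟩ := exists_xi (k := k) (Finset.univ.filter fun e : Mon κ d => e.1.1 = e₀.1.1)
    (fun e => e.1.2) θ (n := d e₀.1.1 - 1)
    (fun e he => by have := e.2; rw [(Finset.mem_filter.1 he).2] at this; omega)
    (fun e he e' he' h => Subtype.ext (Prod.ext ((Finset.mem_filter.1 he).2.trans
      (Finset.mem_filter.1 he').2.symm) h)) (e₀ := e₀) (by simp) h1
  refine ⟨ξ, fun D hD t1 t2 t3 j₁ => by_contra fun hj => ?_⟩
  have t0 := mem_kill_im.1 hD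
  let R : Subring L :=
    { carrier := {x | D x = 0}
      mul_mem' := fun ha hb => by simp_all
      one_mem' := by simp
      add_mem' := fun ha hb => by simp_all
      zero_mem' := by simp
      neg_mem' := fun ha => by simp_all }
  have : IsIntegrallyClosedIn R L := Subring.isIntegrallyClosedIn_iff.2 fun _ hx =>
    der_alg D Subtype.val_injective (fun a => a.2) hx.isAlgebraic
  obtain ⟨V, hV, hV'⟩ := Subring.exists_le_valuationSubring_of_isIntegrallyClosedIn (R := R) hj
  have hR : ∀ x, D x = 0 → x ∈ V := fun x hx => hV hx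
  obtain ⟨j₀, -, h3⟩ := Finset.univ.exists_max_image (fun j => V.valuation (p j))
    ⟨j₁, Finset.mem_univ _⟩
  have h4 : 1 < V.valuation (p j₀) :=
    (lt_of_not_ge fun h => hV' ((V.valuation_le_one_iff _).1 h)).trans_le (h3 j₁ (by simp))
  have h5 : p j₀ ≠ 0 := fun h => by simp [h] at h4
  let : Algebra k V := ((algebraMap k L).codRestrict V fun x => hR _ (t0 x)).toAlgebra
  have : IsScalarTower k V L := .of_algebraMap_eq fun _ => rfl
  let φ := IsScalarTower.toAlgHom k V L
  let π := IsScalarTower.toAlgHom k V (IsLocalRing.ResidueField V)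
  have hφ : Function.Injective φ := Subtype.val_injective
  have h6 : V.valuation (p j₀)⁻¹ < 1 := by rwa [map_inv₀, inv_lt_one₀ (zero_lt_one.trans h4)]
  let ε : V := ⟨(p j₀)⁻¹, (V.valuation_le_one_iff _).1 h6.le⟩
  have hε : π ε = 0 := (IsLocalRing.residue_eq_zero_iff _).2 ((V.valuation_lt_one_iff ε).2 h6)
  let v : ι → V := fun j => ⟨(p j₀)⁻¹ * p j, (V.valuation_le_one_iff _).1 (by
    rw [map_mul, map_inv₀, inv_mul_le_iff₀ (zero_lt_one.trans h4), mul_one]
    exact h3 j (by simp))⟩
  have hv : ∀ (q : MvPolynomial ι k) n, 1 ≤ n → q.IsHomogeneous n → D (aeval p q) = 0 →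
      aeval (fun j => π (v j)) q = 0 := fun q n hn hq h => by
    have : aeval v q = ε ^ n * ⟨_, hR _ h⟩ :=
      hφ ((comp_aeval_apply v φ q).trans (aeval_mul_hom hq _ p))
    rw [← comp_aeval_apply, this, map_mul, map_pow, hε, zero_pow (by omega), zero_mul]
  let θ' : Mon κ d → V := fun e => ⟨θ e, hR _ (t1 e)⟩
  have h7 : ∀ j, HH f d ξ (d e₀.1.1) θ' (fun v => ⟨_, hR _ (t2 v)⟩) ε v j = 0 := fun j => hφ (by
    rw [map_HH, map_zero, ← mul_zero ((p j₀)⁻¹ ^ (d e₀.1.1 - 1)), ← h0 j, Finset.mul_sum]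
    refine Finset.sum_congr rfl fun e _ => ?_
    have : (fun j' => C (φ ε) * frame (fun v => A v - algebraMap k L (ξ v.2) * p v.1) (fun _ => 0) j' +
        map (algebraMap k L) (xi ξ) * C (φ (v j'))) = fun j' => C (p j₀)⁻¹ * frame A p j' := by
      funext j'
      change C (p j₀)⁻¹ * _ + _ * C ((p j₀)⁻¹ * p j') = _
      simp only [frame, xi, map_add, map_sum, smul_eq_C_mul, map_mul, map_C, map_X, map_one,
        map_zero, zero_add, map_sub, sub_mul, Finset.sum_sub_distrib, mul_right_comm _ (C (p j')),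
        ← Finset.sum_mul]
      ring
    erw [this]
    rw [aeval_mul_hom (hf _).pderiv, ← C_pow, coeff_C_mul]
    change (p j₀)⁻¹ ^ _ * θ e * _ = _
    by_cases h : θ e = 0
    · simp [h]
    · rw [show d e₀.1.1 - 1 = d e₀.1.1 - d e.1.1 + (d e.1.1 - 1) by
        have := h2 e h; have := hd e.1.1; omega]
      ring)
  have h8 := Fintype.linearIndependent_iff.1 (hs.ext _ (fun j => π (v j))
    (fun h => one_ne_zero ((map_one π).symm.trans ((congrArg π (Subtype.ext
      (inv_mul_cancel₀ h5).symm)).trans (congrFun h j₀))))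
    (fun i => hv _ _ (hd i) (hf i) (hp i ▸ t0 _))
    fun m => (hl m).elim fun e he => hv _ _ he.1 he.2 (t3 m))
    (fun i => ∑ e with e.1.1 = i, 0 ^ (d e₀.1.1 - d i) * π (θ' e) *
      algebraMap k _ (coeff e.1.2 (xi ξ ^ (d i - 1)))) (funext fun j => by
      have := congrArg π (h7 j)
      rw [map_HH, map_zero, hε, HH, ← Finset.sum_fiberwise _ fun e : Mon κ d => e.1.1] at this
      rw [Finset.sum_apply]
      refine (Finset.sum_congr rfl fun i _ => ?_).trans this
      rw [Pi.smul_apply, smul_eq_mul, Finset.sum_mul]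
      refine Finset.sum_congr rfl fun e he => ?_
      rw [← (Finset.mem_filter.1 he).2]
      simp only [C_0, zero_mul, zero_add, aeval_mul_hom (hf _).pderiv]
      rw [← MvPolynomial.algebraMap_eq, aeval_map', MvPolynomial.algebraMap_eq, mul_comm _ (C _),
        coeff_C_mul, ← map_pow, coeff_map]
      ring) e₀.1.1
  let g : V := ∑ e with e.1.1 = e₀.1.1, θ' e * algebraMap k V (coeff e.1.2 (xi ξ ^ (d e₀.1.1 - 1)))
  have hg : φ g = ∑ e with e.1.1 = e₀.1.1,
      θ e * algebraMap k L (coeff e.1.2 (xi ξ ^ (d e₀.1.1 - 1))) := by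
    simp only [g, map_sum, map_mul, AlgHom.commutes]
    rfl
  have h9 : D (φ g)⁻¹ = 0 := by
    have : D (φ g) = 0 := by simp [hg, t0, t1]
    rw [Derivation.leibniz_inv, this, smul_zero]
  have h10 : π g = 0 := by
    simpa only [g, map_sum, map_mul, AlgHom.commutes, Nat.sub_self, pow_zero, one_mul] using h8
  have h11 : g * ⟨_, hR _ h9⟩ = 1 := hφ (by
    rw [map_mul, map_one]
    exact mul_inv_cancel₀ (hg ▸ hξ))
  simpa [h10] using congrArg π h11

end Pool.Agent.P.MP_84b56d_ag.CI
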