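import Pool.Agent.P.MP_84b56d_ag.CI.Rk

/-! Degree bounds and spanning families. -/

open MvPolynomial

namespace Pool.Agent.P.MP_84b56d_ag.CI

section Deg

variable {σ τ R S : Type*} [CommRing R] [CommRing S] {p q : MvPolynomial σ R} {a b e : ℕ}

theorem Dg.mono (h : Dg p a) (hab : a ≤ b) : Dg p b := fun α hα => (h α hα).trans_le hab

theorem dg_zero : Dg (0 : MvPolynomial σ R) e := fun _ h => (h rfl).elim

theorem Dg.coeff_zero (h : Dg p e) {α : σ →₀ ℕ} (hα : ¬ α.degree < e) : coeff α p = 0 :=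
  by_contra fun h' => hα (h α h')

theorem Dg.add (hp : Dg p e) (hq : Dg q e) : Dg (p + q) e := fun α hα => by_contra fun h =>
  hα (by rw [coeff_add, hp.coeff_zero h, hq.coeff_zero h, add_zero])

theorem Dg.sub (hp : Dg p e) (hq : Dg q e) : Dg (p - q) e := fun α hα => by_contra fun h =>
  hα (by rw [coeff_sub, hp.coeff_zero h, hq.coeff_zero h, sub_zero])

theorem dg_sum {ι : Type*} {s : Finset ι} {g : ι → MvPolynomial σ R} (h : ∀ i ∈ s, Dg (g i) e) :
    Dg (∑ i ∈ s, g i) e :=
  Finset.sum_induction g (Dg · e) (fun _ _ => Dg.add) dg_zero h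

theorem Dg.mul (hp : Dg p (a + 1)) (hq : Dg q b) : Dg (p * q) (a + b) := fun α hα => by
  classical
  rw [coeff_mul] at hα
  obtain ⟨x, hx, h⟩ := Finset.exists_ne_zero_of_sum_ne_zero hα
  have h1 := hp _ (left_ne_zero_of_mul h)
  have h2 := hq _ (right_ne_zero_of_mul h)
  rw [← Finset.HasAntidiagonal.mem_antidiagonal.1 hx, map_add]
  omega

theorem dg_monomial {α : σ →₀ ℕ} (h : α.degree < e) (c : R) : Dg (monomial α c) e := fun β hβ => by
  classical
  rw [coeff_monomial] at hβ
  split_ifs at hβ with h'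
  · exact h' ▸ h
  · exact (hβ rfl).elim

theorem dg_C (c : R) : Dg (C c : MvPolynomial σ R) 1 := dg_monomial (by simp) c

theorem dg_X (i : σ) : Dg (X i : MvPolynomial σ R) 2 := dg_monomial (by simp) 1

theorem Dg.C_mul (hp : Dg p e) (c : R) : Dg (C c * p) e := by
  simpa using (dg_C c).mul (a := 0) hp

theorem Dg.map (hp : Dg p e) (φ : R →+* S) : Dg (map φ p) e := fun α hα =>
  hp α fun h => hα (by rw [coeff_map, h, map_zero])

theorem Dg.pderiv (hp : Dg p e) (j : σ) : Dg (pderiv j p) (e - 1) := fun α hα => by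
  rw [coeff_pderiv] at hα
  have := hp _ (left_ne_zero_of_mul hα)
  rw [map_add, Finsupp.degree_single] at this
  omega

theorem Dg.of_X_mul {s : σ} (h : Dg (X s * p) (e + 1)) : Dg p e := fun α hα => by
  have := h (Finsupp.single s 1 + α) (by rwa [coeff_X_mul])
  rw [map_add, Finsupp.degree_single] at this
  omega

theorem Dg.pow (hp : Dg p 2) (n : ℕ) : Dg (p ^ n) (n + 1) := by
  induction n with
  | zero => simpa using dg_C (1 : R)
  | succ n ih => rw [pow_succ]; exact ih.mul hp

theorem Dg.aeval [Algebra R S] (hp : Dg p e) {Λ : σ → MvPolynomial τ S} (h : ∀ j, Dg (Λ j) 2) :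
    Dg (aeval Λ p) e := by
  classical
  rw [aeval_def, eval₂_eq]
  refine dg_sum fun α hα => Dg.C_mul (Dg.mono ?_ (hp α (mem_support_iff.1 hα))) _
  rw [Finsupp.degree_apply]
  induction α.support using Finset.induction_on with
  | empty => simpa using dg_C (1 : S)
  | insert i s hi ih =>
    rw [Finset.prod_insert hi, Finset.sum_insert hi]
    exact ((h i).pow _).mul ih

theorem Dg.ext (hp : Dg p e) (hq : Dg q e) (h : ∀ α, α.degree < e → coeff α p = coeff α q) :
    p = q := MvPolynomial.ext _ _ fun α => by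
  by_cases hα : α.degree < e
  · exact h α hα
  · rw [hp.coeff_zero hα, hq.coeff_zero hα]

theorem dg_of_hom (h : p.IsHomogeneous e) : Dg p (e + 1) := fun α hα => by
  rw [Finsupp.degree_eq_weight_one]
  exact Nat.lt_succ_of_le (h hα).le

theorem Dg.eq_C (h : Dg p 1) : p = C (coeff 0 p) := h.ext (dg_C _) fun α hα => by
  rw [(Finsupp.degree_eq_zero_iff α).1 (by omega)]
  simp

theorem dg_frame {J : Type*} [Fintype σ] (c : J × σ → R) (x : J → R) (j : J) :
    Dg (frame c x j) 2 :=
  ((dg_C _).mono (by omega)).add (dg_sum fun _ _ => (dg_X _).C_mul _)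

theorem dg_graph {J : Type*} [Fintype σ] (c : J × σ → R) (x : σ ⊕ J → R) :
    ∀ j, Dg (graph c x j) 2 := by
  rintro (j | j)
  · exact ((dg_C (x (Sum.inl j))).mono (by omega)).add (dg_X j)
  · exact dg_frame c (fun j => x (Sum.inr j)) j

theorem map_frame {J : Type*} [Fintype σ] (φ : R →+* S) (c : J × σ → R) (x : J → R) (j : J) :
    map φ (frame c x j) = frame (fun v => φ (c v)) (fun v => φ (x v)) j := by
  simp [frame]

theorem map_graph {J : Type*} [Fintype σ] (φ : R →+* S) (c : J × σ → R) (x : σ ⊕ J → R) :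
    ∀ j, map φ (graph c x j) = graph (fun v => φ (c v)) (fun v => φ (x v)) j := by
  rintro (j | j)
  · simp [graph]
  · exact map_frame φ c (fun j => x (Sum.inr j)) j

theorem map_aeval' {F : Type*} [CommRing F] [Algebra F R] [Algebra F S] (φ : R →ₐ[F] S)
    (Λ : σ → MvPolynomial τ R) (f : MvPolynomial σ F) :
    map (φ : R →+* S) (aeval Λ f) = aeval (fun j => map (φ : R →+* S) (Λ j)) f :=
  comp_aeval_apply Λ (mapAlgHom φ) f

end Deg

section Mat

variable {E J K R : Type*} [Fintype E] [Fintype J] [Field K] [CommRing R]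

theorem surj_of_indep {M : Matrix E J K} (h : LinearIndependent K M) :
    Function.Surjective M.mulVec := by
  have h1 : M.rank = Fintype.card E := LinearIndependent.rank_matrix h
  exact LinearMap.range_eq_top.1 (Submodule.eq_top_of_finrank_eq (S := M.mulVecLin.range)
    (by rw [Module.finrank_fintype_fun_eq_card]; exact h1))

theorem minor_of_surj [DecidableEq E] {M : Matrix E J K} (h : Function.Surjective M.mulVec) :
    ∃ c : E → J, (M.submatrix id c).det ≠ 0 := by
  classical
  obtain ⟨W, hW⟩ := Matrix.mulVec_surjective_iff_exists_right_inverse.1 h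
  by_contra hc
  push Not at hc
  have : (M * W).det = ∑ c : E → J, (∏ e, W (c e) e) * (M.submatrix id c).det := by
    simp only [Matrix.det_apply', Matrix.mul_apply, Finset.prod_univ_sum, Fintype.piFinset_univ,
      Finset.mul_sum, Finset.prod_mul_distrib, Matrix.submatrix_apply, id]
    rw [Finset.sum_comm]
    exact Finset.sum_congr rfl fun _ _ => Finset.sum_congr rfl fun _ _ => by ring
  simp [hW, hc] at this

theorem surj_of_minor [DecidableEq E] {M : Matrix E J K} {c : E → J}
    (h : (M.submatrix id c).det ≠ 0) : Function.Surjective M.mulVec := by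
  classical
  intro y
  obtain ⟨x, hx⟩ := Matrix.mulVec_surjective_iff_isUnit.2
    ((Matrix.isUnit_iff_isUnit_det _).2 (Ne.isUnit h)) y
  refine ⟨∑ e, Pi.single (c e) (x e), ?_⟩
  rw [← hx, Matrix.mulVec_sum]
  ext e
  simp [Matrix.mulVec, dotProduct, mul_comm]

theorem surj_gen {K' : Type*} [Field K'] (M : Matrix E J R) (φ : R →+* K') (ψ : R →+* K)
    (hψ : ∀ r, ψ r = 0 → φ r = 0) (h : Function.Surjective (M.map φ).mulVec) :
    Function.Surjective (M.map ψ).mulVec := by
  classical
  obtain ⟨c, hc⟩ := minor_of_surj h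
  refine surj_of_minor (c := c) fun h0 => hc ?_
  rw [Matrix.submatrix_map, ← RingHom.mapMatrix_apply, ← RingHom.map_det] at h0 ⊢
  exact hψ _ h0

end Mat

section Span

variable {I J J' κ κ' R S : Type*} [CommRing R] [CommRing S] [Fintype J] [Fintype J']
  [DecidableEq I] {a : I → J → MvPolynomial κ R} {d : I → ℕ}

theorem Hit.map {i : I} {α : κ →₀ ℕ} (h : Hit a i α) (φ : R →+* S) :
    Hit (fun i j => map φ (a i j)) i α := by
  obtain ⟨w, hw⟩ := h
  refine ⟨fun j => φ (w j), fun i' => ?_⟩
  have := congrArg (MvPolynomial.map φ) (hw i')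
  split_ifs at this ⊢ <;> simpa using this

theorem Good.map (h : Good a d) (φ : R →+* S) : Good (fun i j => map φ (a i j)) d :=
  fun i α hα => (h i α hα).map φ

theorem Good.surj [Fintype I] (h : Good a d) (q : I → MvPolynomial κ R) (hq : ∀ i, Dg (q i) (d i)) :
    ∃ w : J → R, ∀ i, ∑ j, C (w j) * a i j = q i := by
  choose! W hW using h
  refine ⟨fun j => ∑ i, ∑ α ∈ (q i).support, coeff α (q i) * W i α j, fun i' => ?_⟩
  simp only [map_sum, map_mul, Finset.sum_mul, mul_assoc]
  rw [Finset.sum_comm, Finset.sum_eq_single i' (fun i _ hi => ?_) (by simp), Finset.sum_comm]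
  · refine (Finset.sum_congr rfl fun α hα => ?_).trans (q i').as_sum.symm
    rw [← Finset.mul_sum, hW i' α (hq _ _ (mem_support_iff.1 hα)), if_pos rfl, C_mul_monomial,
      mul_one]
  · rw [Finset.sum_comm]
    refine Finset.sum_eq_zero fun α hα => ?_
    rw [← Finset.mul_sum, hW i α (hq _ _ (mem_support_iff.1 hα)), if_neg hi.symm, mul_zero]

theorem Good.comp [Fintype I] (h : Good a d) (Ψ : MvPolynomial κ R →ₐ[R] MvPolynomial κ' R)
    (s : κ' → MvPolynomial κ R) (h1 : ∀ l, Dg (s l) 2) (h2 : ∀ l, Ψ (s l) = X l) :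
    Good (fun i j => Ψ (a i j)) d := fun i α hα => by
  obtain ⟨w, hw⟩ := h.surj (fun i' => if i' = i then aeval s (monomial α (1 : R)) else 0) fun i' => by
    split_ifs with h'
    · exact h' ▸ (dg_monomial hα _).aeval h1
    · exact dg_zero
  refine ⟨w, fun i' => ?_⟩
  have h3 := congrArg Ψ (hw i')
  have h4 : ∀ c : R, Ψ (C c) = C c := Ψ.commutes
  simp only [map_sum, map_mul, h4] at h3
  rw [h3]
  split_ifs
  · rw [comp_aeval_apply, funext h2, aeval_X_left_apply]
  · exact map_zero _

theorem Hit.cols {a' : I → J' → MvPolynomial κ R} {i : I} {α : κ →₀ ℕ} (h : Hit a' i α)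
    (e : J' → J) (he : ∀ i j, a i (e j) = a' i j) : Hit a i α := by
  classical
  obtain ⟨w, hw⟩ := h
  refine ⟨∑ j, Pi.single (e j) (w j), fun i' => ?_⟩
  rw [← hw i']
  simp only [Finset.sum_apply, map_sum, Finset.sum_mul]
  rw [Finset.sum_comm]
  refine Finset.sum_congr rfl fun j _ => ?_
  rw [Finset.sum_eq_single (e j) (fun _ _ h => by simp [h]) (by simp), he, Pi.single_eq_same]

theorem Good.mulX [Fintype κ] (h : Good a d) {i : I} {α : κ →₀ ℕ} (h0 : α ≠ 0)
    (h1 : α.degree < d i + 1) : Hit (fun i (v : J × κ) => X v.2 * a i v.1) i α := by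
  obtain ⟨l, hl⟩ := Finsupp.ne_iff.1 h0
  obtain ⟨β, rfl⟩ : ∃ β, α = Finsupp.single l 1 + β :=
    exists_add_of_le (Finsupp.single_le_iff.2 (Nat.one_le_iff_ne_zero.2 hl))
  rw [map_add, Finsupp.degree_single] at h1
  obtain ⟨w, hw⟩ := h i β (by omega)
  refine Hit.cols (a' := fun i j => X l * a i j) ⟨w, fun i' => ?_⟩ (fun j => (j, l)) fun _ _ => rfl
  simp only [mul_left_comm, ← Finset.mul_sum, hw]
  split_ifs
  · rw [X, monomial_mul, one_mul]
  · exact mul_zero _

theorem surj_of_hit {E : Type*} [Fintype E] (e : E → I × (κ →₀ ℕ)) (he : Function.Injective e)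
    (h : ∀ x, Hit a (e x).1 (e x).2) :
    Function.Surjective (Matrix.of fun x j => coeff (e x).2 (a (e x).1 j)).mulVec := by
  classical
  choose W hW using h
  refine Matrix.mulVec_surjective_iff_exists_right_inverse.2 ⟨Matrix.of fun j x => W x j, ?_⟩
  ext x y
  have := congrArg (coeff (e x).2) (hW y (e x).1)
  simp only [coeff_sum, coeff_C_mul] at this
  simp only [Matrix.mul_apply, Matrix.of_apply, mul_comm, this, Matrix.one_apply, ← he.eq_iff,
    Prod.ext_iff]
  by_cases h1 : (e x).1 = (e y).1 <;> simp [h1, coeff_monomial, eq_comm]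

end Span

section Gen

variable {I κ : Type} {J R : Type*} [CommRing R] [Fintype J] [DecidableEq I] {d : I → ℕ}

theorem good_of_surj {a : I → J → MvPolynomial κ R} (ha : ∀ i j, Dg (a i j) (d i))
    (h : Function.Surjective (Matrix.of fun (x : Mon κ d) j => coeff x.1.2 (a x.1.1 j)).mulVec) :
    Good a d := fun i α hα => by
  obtain ⟨w, hw⟩ := h fun x => coeff x.1.2 (if x.1.1 = i then monomial α 1 else 0)
  refine ⟨w, fun i' => Dg.ext (e := d i') (dg_sum fun j _ => (ha _ _).C_mul _) ?_ fun β hβ => ?_⟩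
  · split_ifs with h'
    · exact h' ▸ dg_monomial hα _
    · exact dg_zero
  · rw [← congrFun hw ⟨(i', β), hβ⟩]
    simp only [coeff_sum, coeff_C_mul]
    simp [Matrix.mulVec, dotProduct, mul_comm]

theorem Good.gen [Finite I] [Finite κ] {K K' : Type*} [Field K] [Field K']
    {a : I → J → MvPolynomial κ R} (ha : ∀ i j, Dg (a i j) (d i)) (φ : R →+* K') (ψ : R →+* K)
    (hψ : Function.Injective ψ) (h : Good (fun i j => MvPolynomial.map φ (a i j)) d) :
    Good (fun i j => MvPolynomial.map ψ (a i j)) d := by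
  have := Fintype.ofFinite (Mon κ d)
  have h1 := surj_of_hit (Subtype.val : Mon κ d → _) Subtype.val_injective fun x => h _ _ x.2
  refine good_of_surj (fun i j => (ha i j).map _) ?_
  simp only [coeff_map] at h1 ⊢
  exact surj_gen (Matrix.of fun (x : Mon κ d) j => coeff x.1.2 (a x.1.1 j)) φ ψ
    (fun r h => by rw [hψ (h.trans ψ.map_zero.symm), map_zero]) h1

theorem rk_hit {Ω : Type*} [Field Ω] {T : Set Ω} {V E : Type} [Fintype V] [Fintype E] {z : V → Ω}
    (c : I → V → MvPolynomial κ Ω) (e : E → I × (κ →₀ ℕ)) (he : Function.Injective e)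
    (h1 : ∀ x, Hit c (e x).1 (e x).2) (h2 : ∀ D ∈ kill T, ∀ i, ∑ v, C (D (z v)) * c i v = 0) :
    rk T z + Fintype.card E ≤ Fintype.card V :=
  rk_jac _ (surj_of_hit e he h1) fun D hD x => by
    have := congrArg (coeff (e x).2) (h2 D hD (e x).1)
    simp only [coeff_sum, coeff_C_mul] at this
    simpa [mul_comm] using this

end Gen

section Coeff

variable {Ω κ : Type*} [Field Ω] (D : Derivation ℤ Ω Ω)

/-- a derivation applied to the coefficients -/
noncomputable def cd0 (p : MvPolynomial κ Ω) : MvPolynomial κ Ω :=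
  ∑ α ∈ p.support, monomial α (D (coeff α p))

theorem coeff_cd0 (p : MvPolynomial κ Ω) (α : κ →₀ ℕ) : coeff α (cd0 D p) = D (coeff α p) := by
  classical
  simp only [cd0, coeff_sum, coeff_monomial, Finset.sum_ite_eq', mem_support_iff]
  split_ifs with h
  · rfl
  · rw [not_not.1 h, map_zero]

/-- as an additive map -/
noncomputable def cd : MvPolynomial κ Ω →+ MvPolynomial κ Ω :=
  AddMonoidHom.mk' (cd0 D) fun p q => MvPolynomial.ext _ _ fun α => by simp [coeff_cd0]

theorem coeff_cd (p : MvPolynomial κ Ω) (α : κ →₀ ℕ) : coeff α (cd D p) = D (coeff α p) :=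
  coeff_cd0 D p α

theorem cd_mul (p q : MvPolynomial κ Ω) : cd D (p * q) = p * cd D q + q * cd D p := by
  classical
  ext α
  rw [mul_comm q]
  simp only [coeff_cd, coeff_mul, coeff_add, map_sum, Derivation.leibniz, smul_eq_mul,
    Finset.sum_add_distrib, mul_comm (D _)]

theorem cd_C (c : Ω) : cd D (C c : MvPolynomial κ Ω) = C (D c) := by
  classical
  ext α
  simp only [coeff_cd, coeff_C]
  split_ifs <;> simp

theorem cd_X (l : κ) : cd D (X l : MvPolynomial κ Ω) = 0 := by
  classical
  ext α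
  simp only [coeff_cd, coeff_X]
  split_ifs <;> simp

theorem cd_frame {J : Type*} [Fintype κ] (c : J × κ → Ω) (x : J → Ω) (j : J) :
    cd D (frame c x j) = C (D (x j)) + ∑ l, C (D (c (j, l))) * X l := by
  simp [frame, cd_mul, cd_C, cd_X, mul_comm]

theorem cd_aeval {F V : Type*} [Field F] [Algebra F Ω] [Fintype V] {D : Derivation ℤ Ω Ω}
    (hD : D ∈ kill (im F Ω)) (A : V → MvPolynomial κ Ω) (P : MvPolynomial V F) :
    cd D (aeval A P) = ∑ v, aeval A (pderiv v P) * cd D (A v) :=
  chain (cd D) (cd_mul D) (fun c => by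
    rw [MvPolynomial.algebraMap_apply, cd_C, mem_kill_im.1 hD, map_zero]) A P

end Coeff

end Pool.Agent.P.MP_84b56d_ag.CI
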