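import Pool.Agent.P.MP_84b56d_ag.CI.Defs

/-! The rank of a family of field elements, through derivations. -/

open MvPolynomial Module

namespace Pool.Agent.P.MP_84b56d_ag.CI

section Lin

variable {K M N N' : Type*} [Field K] [AddCommGroup M] [Module K M] [AddCommGroup N]
  [Module K N] [AddCommGroup N'] [Module K N'] [FiniteDimensional K N] [FiniteDimensional K N']

theorem fr_prod (A : Submodule K M) (f : M →ₗ[K] N) (g : M →ₗ[K] N') :
    finrank K (A.map (f.prod g)) = finrank K (A.map f) + finrank K ((A ⊓ f.ker).map g) := by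
  rw [← ((LinearMap.fst K N N').domRestrict (A.map (f.prod g))).finrank_range_add_finrank_ker,
    LinearMap.range_domRestrict, ← Submodule.map_comp, LinearMap.fst_prod,
    (Submodule.equivMapOfInjective (LinearMap.inr K N N') LinearMap.inr_injective
      ((A ⊓ f.ker).map g)).finrank_eq, ← Submodule.finrank_map_subtype_eq (A.map (f.prod g))]
  have : ((LinearMap.fst K N N').domRestrict (A.map (f.prod g))).ker.map
      (A.map (f.prod g)).subtype = ((A ⊓ f.ker).map g).map (LinearMap.inr K N N') := by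
    ext ⟨x, y⟩
    simp only [Submodule.mem_map, LinearMap.mem_ker, Submodule.mem_inf]
    constructor
    · rintro ⟨⟨_, m, hm, rfl⟩, h, e⟩
      exact ⟨g m, ⟨m, ⟨hm, h⟩, rfl⟩,
        (show ((0 : N), g m) = (f m, g m) from Prod.ext (Eq.symm h) rfl).trans e⟩
    · rintro ⟨_, ⟨m, ⟨hm, h⟩, rfl⟩, e⟩
      exact ⟨⟨_, m, hm, rfl⟩, h, (show (f m, g m) = (0, g m) from Prod.ext h rfl).trans e⟩
  rw [this]

theorem fr_le (A : Submodule K M) (f : M →ₗ[K] N) (g : M →ₗ[K] N')
    (h : ∀ x ∈ A, f x = 0 → g x = 0) : finrank K (A.map g) ≤ finrank K (A.map f) := by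
  have h1 := fr_prod A f g
  have h2 : (A ⊓ f.ker).map g = ⊥ := by
    rw [eq_bot_iff]
    rintro _ ⟨x, hx, rfl⟩
    exact h x hx.1 hx.2
  have h3 := Submodule.finrank_map_le (LinearMap.snd K N N') (A.map (f.prod g))
  rw [← Submodule.map_comp, LinearMap.snd_prod] at h3
  rw [h2, finrank_bot, add_zero] at h1
  exact h1 ▸ h3

end Lin

section Rank

variable {Ω : Type*} [Field Ω] {T T' : Set Ω} {V V' V'' : Type}

theorem mem_kill {D : Derivation ℤ Ω Ω} : D ∈ kill T ↔ ∀ t ∈ T, D t = 0 := Iff.rfl

theorem mem_kill_union {D : Derivation ℤ Ω Ω} {w : V → Ω} :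
    D ∈ kill (T ∪ Set.range w) ↔ D ∈ kill T ∧ ∀ v, D (w v) = 0 := by
  simp only [mem_kill, Set.mem_union, or_imp, forall_and, Set.forall_mem_range]

theorem mem_kill_im {F : Type*} [Field F] [Algebra F Ω] {D : Derivation ℤ Ω Ω} :
    D ∈ kill (im F Ω) ↔ ∀ c, D (algebraMap F Ω c) = 0 := by
  simp only [mem_kill, Set.forall_mem_range]

theorem kill_tower (F F' : Type*) [Field F] [Field F'] [Algebra F F'] [Algebra F Ω] [Algebra F' Ω]
    [IsScalarTower F F' Ω] : kill (im F' Ω) ≤ kill (im F Ω) := fun _ h =>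
  mem_kill_im.2 fun c => by rw [IsScalarTower.algebraMap_apply F F' Ω]; exact mem_kill_im.1 h _

theorem rk_le_card [Fintype V] (z : V → Ω) : rk T z ≤ Fintype.card V :=
  (Submodule.finrank_le _).trans (by simp)

theorem rk_mono [Finite V] [Finite V'] {z : V → Ω} {y : V' → Ω} (h1 : kill T' ≤ kill T)
    (h2 : ∀ D ∈ kill T', (∀ v, D (z v) = 0) → ∀ v, D (y v) = 0) : rk T' y ≤ rk T z :=
  (fr_le _ (ev z) (ev y) fun D hD h => funext (h2 D hD (congrFun h))).trans
    (Submodule.finrank_mono (Submodule.map_mono h1))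

theorem rk_sum [Finite V] [Finite V'] (w : V → Ω) (z : V' → Ω) :
    rk T (Sum.elim w z) = rk T w + rk (T ∪ Set.range w) z := by
  have h1 : kill (T ∪ Set.range w) = kill T ⊓ (ev w).ker := by
    ext D
    rw [mem_kill_union, Submodule.mem_inf, LinearMap.mem_ker, funext_iff]
    rfl
  simp only [rk]
  rw [h1, ← fr_prod]
  refine le_antisymm (fr_le _ _ _ fun D _ h => ?_) (fr_le _ _ _ fun D _ h => ?_)
  · ext (v | v)
    · exact congrFun (congrArg Prod.fst h) v
    · exact congrFun (congrArg Prod.snd h) v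
  · exact Prod.ext (funext fun v => congrFun h (Sum.inl v)) (funext fun v => congrFun h (Sum.inr v))

/-- exchange: `w, y` are determined by `x, z`, and `T'` contains `w` -/
theorem rk_exch {V₃ : Type} [Finite V] [Finite V'] [Finite V''] [Finite V₃] {w : V → Ω}
    {y : V' → Ω} {x : V'' → Ω} {z : V₃ → Ω} (h1 : kill T' ≤ kill T)
    (h2 : ∀ D ∈ kill T', ∀ v, D (w v) = 0)
    (h3 : ∀ D ∈ kill T, (∀ v, D (x v) = 0) → (∀ v, D (z v) = 0) →
      (∀ v, D (w v) = 0) ∧ ∀ v, D (y v) = 0) :
    rk T w + rk T' y ≤ rk T x + rk (T ∪ Set.range x) z := by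
  rw [← rk_sum]
  refine le_trans (Nat.add_le_add_left (rk_mono (T := T ∪ Set.range w) (z := y)
    (fun D hD => mem_kill_union.2 ⟨h1 hD, h2 D hD⟩) fun _ _ h => h) _) ?_
  rw [← rk_sum]
  refine rk_mono le_rfl fun D hD h => ?_
  have := h3 D hD (fun v => h (Sum.inl v)) fun v => h (Sum.inr v)
  exact Sum.forall.2 this

theorem rk_le_add [Finite V] [Finite V'] [Fintype V''] {y : V → Ω} {x : V' → Ω} {z : V'' → Ω}
    (h : ∀ D ∈ kill T, (∀ v, D (x v) = 0) → (∀ v, D (z v) = 0) → ∀ v, D (y v) = 0) :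
    rk T y ≤ rk T x + Fintype.card V'' := by
  refine le_trans (rk_mono (z := Sum.elim x z) le_rfl fun D hD h' =>
    h D hD (fun v => h' (Sum.inl v)) fun v => h' (Sum.inr v)) ?_
  rw [rk_sum]
  exact Nat.add_le_add_left (rk_le_card _) _

/-- Jacobian bound -/
theorem rk_jac [Fintype V] {E : Type} [Fintype E] {z : V → Ω} (M : Matrix E V Ω)
    (h1 : Function.Surjective M.mulVec)
    (h2 : ∀ D ∈ kill T, ∀ e, ∑ v, M e v * D (z v) = 0) :
    rk T z + Fintype.card E ≤ Fintype.card V := by
  have h3 := M.mulVecLin.finrank_range_add_finrank_ker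
  rw [LinearMap.range_eq_top.2 h1] at h3
  have h4 : rk T z ≤ finrank Ω M.mulVecLin.ker := Submodule.finrank_mono (by
    rintro _ ⟨D, hD, rfl⟩
    exact funext (h2 D hD))
  simp only [finrank_top, finrank_fintype_fun_eq_card] at h3
  omega

theorem der_eval (D : Derivation ℤ Ω Ω) (x : Ω) (p : Polynomial Ω) (h : ∀ n, D (p.coeff n) = 0) :
    D (p.eval x) = p.derivative.eval x * D x := by
  rw [Polynomial.eval_eq_sum_range, map_sum, Polynomial.derivative_eval, Polynomial.sum_over_range,
    Finset.sum_mul]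
  · refine Finset.sum_congr rfl fun n _ => ?_
    simp [h, mul_assoc]
  · simp

theorem der_root [CharZero Ω] (D : Derivation ℤ Ω Ω) (x : Ω) (n : ℕ) : ∀ p : Polynomial Ω,
    p.natDegree < n → p ≠ 0 → (∀ n, D (p.coeff n) = 0) → p.eval x = 0 → D x = 0 := by
  induction n with
  | zero => intro p h; omega
  | succ n ih =>
    intro p h1 h2 h3 h4
    have h5 := der_eval D x p h3
    rw [h4, map_zero] at h5
    rcases mul_eq_zero.1 h5.symm with h6 | h6
    · have h7 : p.natDegree ≠ 0 := fun h => by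
        rw [Polynomial.eq_C_of_natDegree_eq_zero h] at h2 h4
        exact h2 (by rw [Polynomial.eval_C] at h4; rw [h4, map_zero])
      refine ih _ (lt_of_lt_of_le (Polynomial.natDegree_derivative_lt h7) (by omega))
        (fun h => h7 (Polynomial.derivative_eq_zero.1 h)) (fun m => ?_) h6
      rw [Polynomial.coeff_derivative]
      simp [h3]
    · exact h6

theorem der_alg [CharZero Ω] (D : Derivation ℤ Ω Ω) {A : Type*} [CommRing A] [Algebra A Ω]
    (h0 : Function.Injective (algebraMap A Ω)) (h1 : ∀ a, D (algebraMap A Ω a) = 0) {x : Ω}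
    (hx : IsAlgebraic A x) : D x = 0 := by
  obtain ⟨p, hp, h⟩ := hx
  exact der_root D x _ (p.map (algebraMap A Ω)) (Nat.lt_succ_self _)
    ((Polynomial.map_ne_zero_iff h0).2 hp) (fun n => by rw [Polynomial.coeff_map, h1])
    (by rwa [Polynomial.eval_map_algebraMap])

end Rank

/-- chain rule -/
theorem chain {F S V : Type*} [CommRing F] [CommRing S] [Algebra F S] [Fintype V] (D : S →+ S)
    (hm : ∀ a b, D (a * b) = a * D b + b * D a) (h0 : ∀ c, D (algebraMap F S c) = 0) (z : V → S)
    (P : MvPolynomial V F) : D (aeval z P) = ∑ v, aeval z (pderiv v P) * D (z v) := by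
  classical
  induction P using MvPolynomial.induction_on with
  | C a => simp [h0]
  | add p q hp hq => simp [hp, hq, add_mul, Finset.sum_add_distrib]
  | mul_X p j hp =>
    simp only [map_mul, aeval_X, hm, hp, Derivation.leibniz, smul_eq_mul, map_add, add_mul,
      Finset.sum_add_distrib, Finset.mul_sum, mul_assoc]
    congr 1
    rw [Finset.sum_eq_single j (fun v _ h => by simp [pderiv_X_of_ne h.symm]) (by simp)]
    simp

variable {F Ω : Type*} [Field F] [Field Ω] [Algebra F Ω] {V : Type}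

theorem der_chain [Fintype V] {D : Derivation ℤ Ω Ω} (hD : D ∈ kill (im F Ω)) (z : V → Ω)
    (P : MvPolynomial V F) : D (aeval z P) = ∑ v, aeval z (pderiv v P) * D (z v) :=
  chain (D.toLinearMap.toAddMonoidHom) D.leibniz (mem_kill_im.1 hD) z P

theorem der_aeval {V : Type*} {D : Derivation ℤ Ω Ω} (hD : D ∈ kill (im F Ω)) {z : V → Ω}
    (hz : ∀ v, D (z v) = 0) (P : MvPolynomial V F) : D (aeval z P) = 0 := by
  induction P using MvPolynomial.induction_on with
  | C a => simpa using mem_kill_im.1 hD a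
  | add p q hp hq => simp [hp, hq]
  | mul_X p j hp => simp [hp, hz]

theorem exists_der [CharZero F] {z : V → Ω} (hz : AlgebraicIndependent F z) (a : V → Ω) :
    ∃ D ∈ kill (im F Ω), ∀ v, D (z v) = a v := by
  obtain ⟨t, ht, hb⟩ := exists_isTranscendenceBasis_superset (R := F) hz.coe_range
  let : Algebra (MvPolynomial t F) Ω := (aeval (R := F) ((↑) : t → Ω)).toAlgebra
  have : IsScalarTower F (MvPolynomial t F) Ω :=
    .of_algebraMap_eq fun c => ((aeval (R := F) ((↑) : t → Ω)).commutes c).symm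
  have : FaithfulSMul (MvPolynomial t F) Ω := (faithfulSMul_iff_algebraMap_injective _ _).2 hb.1
  have := hb.isAlgebraic
  have : Algebra.IsAlgebraic (MvPolynomial t F) Ω :=
    Algebra.IsAlgebraic.ringHom_of_comp_eq hb.1.aevalEquiv.symm (RingHom.id Ω)
      hb.1.aevalEquiv.symm.injective Function.surjective_id (RingHom.ext fun x => by
        obtain ⟨x, rfl⟩ := hb.1.aevalEquiv.surjective x
        simp [RingHom.algebraMap_toAlgebra])
  let := FractionRing.liftAlgebra (MvPolynomial t F) Ω
  have : Algebra.IsAlgebraic (FractionRing (MvPolynomial t F)) Ω :=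
    .extendScalars (R := MvPolynomial t F) (IsFractionRing.injective _ _)
  have := Algebra.FormallyEtale.of_isSeparable (FractionRing (MvPolynomial t F)) Ω
  have := Algebra.FormallyEtale.of_isLocalization (Rₘ := FractionRing (MvPolynomial t F))
    (nonZeroDivisors (MvPolynomial t F))
  have := Algebra.FormallyEtale.comp (MvPolynomial t F) (FractionRing (MvPolynomial t F)) Ω
  let φ := (KaehlerDifferential.isBaseChange_of_formallyEtale F (MvPolynomial t F) Ω).lift
    ((KaehlerDifferential.mvPolynomialBasis F t).constr ℕ fun i => Function.extend z a 0 i.1)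
  refine ⟨(φ.compDer (KaehlerDifferential.D F Ω)).restrictScalars ℤ, mem_kill_im.2 fun c => by simp,
    fun v => ?_⟩
  have h1 : z v = algebraMap (MvPolynomial t F) Ω (X ⟨z v, ht ⟨v, rfl⟩⟩) := by
    simp [RingHom.algebraMap_toAlgebra]
  change φ (KaehlerDifferential.D F Ω (z v)) = _
  rw [h1, ← KaehlerDifferential.map_D F F (MvPolynomial t F) Ω, IsBaseChange.lift_eq,
    ← KaehlerDifferential.mvPolynomialBasis_apply, Basis.constr_basis]
  exact hz.injective.extend_apply _ _ _

theorem card_le_rk [CharZero F] [Finite V] {V' : Type} [Fintype V'] {z : V → Ω} {y : V' → Ω}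
    (hy : AlgebraicIndependent F y)
    (h : ∀ D ∈ kill (im F Ω), (∀ v, D (z v) = 0) → ∀ v, D (y v) = 0) :
    Fintype.card V' ≤ rk (im F Ω) z := by
  refine le_trans ?_ (rk_mono le_rfl h)
  have : (kill (im F Ω)).map (ev y) = ⊤ := eq_top_iff.2 fun a _ => by
    obtain ⟨D, h1, h2⟩ := exists_der hy a
    exact ⟨D, h1, funext h2⟩
  rw [rk, this]
  simp

theorem finset_le_rk [CharZero F] [Finite V] {z : V → Ω} {S : Finset V}
    (hS : AlgebraicIndependent F fun j : S => z j) : S.card ≤ rk (im F Ω) z := by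
  rw [← Fintype.card_coe]
  exact card_le_rk hS fun _ _ h v => h v

theorem exists_indep [CharZero F] [Finite V] (z : V → Ω) :
    ∃ S : Finset V, rk (im F Ω) z ≤ S.card ∧ AlgebraicIndependent F fun j : S => z j := by
  classical
  have := Fintype.ofFinite V
  have : CharZero Ω := charZero_of_injective_algebraMap (algebraMap F Ω).injective
  obtain ⟨S, hS, hm⟩ := (Finset.univ.filter fun S : Finset V =>
    AlgebraicIndepOn F z (S : Set V)).exists_max_image Finset.card ⟨∅, by
      simpa [AlgebraicIndepOn, algebraicIndependent_empty_type_iff] using (algebraMap F Ω).injective⟩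
  simp only [Finset.mem_filter, Finset.mem_univ, true_and] at hS hm
  refine ⟨S, le_trans (rk_mono (z := fun j : S => z j) le_rfl fun D hD h v => ?_)
    ((rk_le_card _).trans (Fintype.card_coe S).le), hS⟩
  by_cases hv : v ∈ S
  · exact h ⟨v, hv⟩
  have h1 := mt (hm (insert v S)) (by rw [Finset.card_insert_of_notMem hv]; omega)
  rw [Finset.coe_insert, AlgebraicIndepOn.insert_iff hv, not_and, Transcendental, not_not] at h1
  refine der_alg D Subtype.val_injective ?_ (h1 hS)
  rintro ⟨a, ha⟩
  rw [Set.image_eq_range, Algebra.adjoin_range_eq_range_aeval] at ha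
  obtain ⟨P, rfl⟩ := ha
  exact der_aeval hD h P

end Pool.Agent.P.MP_84b56d_ag.CI
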