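import Pool.Agent.P.MP_84b56d_ag.CI.Gd

/-! Clearing denominators by scaling the parameters, and the case without equations. -/

open MvPolynomial

namespace Pool.Agent.P.MP_84b56d_ag.CI

universe u

theorem aeval_map' {R A B σ : Type*} [CommRing R] [CommRing A] [CommRing B] [Algebra R A]
    [Algebra A B] [Algebra R B] [IsScalarTower R A B] (x : σ → A) (p : MvPolynomial σ R) :
    aeval (fun j => algebraMap A B (x j)) p = algebraMap A B (aeval x p) :=
  aeval_algebraMap_apply B x p

theorem sc_split {R τ : Type*} [CommRing R] (a : R) (p : MvPolynomial τ R) :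
    ∃ q, constantCoeff q = 0 ∧ aeval (fun l => C a * X l) p = C (constantCoeff p) + C a * q := by
  induction p using MvPolynomial.induction_on with
  | C c => exact ⟨0, by simp, by simp⟩
  | add p q hp hq =>
    obtain ⟨p', h1, h2⟩ := hp
    obtain ⟨q', h3, h4⟩ := hq
    exact ⟨p' + q', by simp [h1, h3], by simp only [map_add, h2, h4]; ring⟩
  | mul_X p l _ => exact ⟨aeval (fun l => C a * X l) p * X l, by simp, by simp [mul_left_comm]⟩

attribute [local instance] algebraMvPolynomial in
theorem common_den {R K τ : Type*} [CommRing R] [Field K] [Algebra R K] [IsFractionRing R K]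
    (s : Finset (MvPolynomial τ K)) : ∃ h : R, algebraMap R K h ≠ 0 ∧ ∀ q ∈ s,
      ∃ n : MvPolynomial τ R, map (algebraMap R K) n = C (algebraMap R K h) * q := by
  obtain ⟨⟨_, h, hh, rfl⟩, H⟩ := IsLocalization.exist_integer_multiples_of_finset
    ((nonZeroDivisors R).map (C (σ := τ))) s
  have := (algebraMap R K).domain_nontrivial
  refine ⟨h, IsFractionRing.to_map_ne_zero_of_mem_nonZeroDivisors hh, fun q hq => ?_⟩
  obtain ⟨n, hn⟩ := H q hq
  exact ⟨n, hn.trans (by simp [Algebra.smul_def])⟩

variable {F₀ : Type*} [Field F₀] {ι : Type} [Fintype ι] {I β : Type*} {f : I → MvPolynomial ι F₀}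
  {b : β → MvPolynomial ι F₀} {e : ℕ}

theorem Par.frac {R K : Type*} [CommRing R] [Field K] [Algebra R K] [IsFractionRing R K]
    [Algebra F₀ R] [Algebra F₀ K] [IsScalarTower F₀ R K] {σ : ι → R}
    (hσ : Ideal.span (Set.range fun g => aeval σ (b g)) = ⊤)
    (h : Par F₀ K f b (fun j => algebraMap R K (σ j)) e) : Par F₀ R f b σ e := by
  classical
  obtain ⟨τ, _, G', h1, h2, h3, S, h4, h5⟩ := h
  obtain ⟨c, hc⟩ := Finsupp.mem_span_range_iff_exists_finsupp.1 ((Ideal.eq_top_iff_one _).1 h2)
  obtain ⟨h, hh, H⟩ := common_den (R := R) (Finset.univ.image G' ∪ c.support.image c)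
  choose n hn using fun j => H (G' j) (by simp)
  choose! m hm using fun g (hg : g ∈ c.support) => H (c g)
    (Finset.mem_union_right _ (Finset.mem_image_of_mem _ hg))
  choose q hq hq' using fun j => sc_split (h ^ 2) (n j)
  let Φ : MvPolynomial τ R →ₐ[F₀] MvPolynomial τ K := mapAlgHom (IsScalarTower.toAlgHom F₀ R K)
  have hΦ : ∀ p, Φ p = map (algebraMap R K) p := fun _ => rfl
  have hinj : Function.Injective Φ := map_injective _ (IsFractionRing.injective R K)
  let Ψ : MvPolynomial τ K →ₐ[K] MvPolynomial τ K := aeval fun l => C (algebraMap R K h ^ 2) * X l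
  have hC : ∀ x, Ψ (C x) = C x := Ψ.commutes
  have hsc : ∀ p, Φ (aeval (fun l => C (h ^ 2) * X l) p) = Ψ (Φ p) := fun p => by
    induction p using MvPolynomial.induction_on with
    | C a => simp [hΦ, hC]
    | add p q hp hq => simp only [map_add, hp, hq]
    | mul_X p l hp => simp only [map_mul, hp]; simp [hΦ, Ψ]
  have hG : ∀ j, Φ (C (σ j) + C h * q j) = Ψ (G' j) := fun j => by
    have h6 := hsc (n j)
    have h7 : algebraMap R K (constantCoeff (n j)) = algebraMap R K h * algebraMap R K (σ j) := by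
      rw [← constantCoeff_map, hn, map_mul, h3, constantCoeff_C]
    rw [hq', hΦ (n j), hn, map_mul, hC] at h6
    refine mul_left_cancel₀ (a := C (algebraMap R K h)) (C_ne_zero.2 hh) ?_
    rw [← h6]
    simp only [hΦ, map_add, map_mul, map_C, h7, map_pow]
    ring
  have hA : ∀ p : MvPolynomial ι F₀, Φ (aeval (fun j => C (σ j) + C h * q j) p) = Ψ (aeval G' p) :=
    fun p => by
      rw [comp_aeval_apply, funext hG]
      exact (comp_aeval_apply G' (Ψ.restrictScalars F₀) p).symm
  refine ⟨τ, ‹_›, fun j => C (σ j) + C h * q j, fun i => hinj (by rw [hA, h1, map_zero, map_zero]),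
    ?_, fun j => by simp [hq], S, h4, .of_comp (((aeval (R := K) fun l =>
      C (algebraMap R K h ^ 2)⁻¹ * X l).restrictScalars F₀).comp Φ) ?_⟩
  · set J := Ideal.span (Set.range fun g => aeval (fun j => C (σ j) + C h * q j) (b g))
    have h6 : C h ∈ J := by
      have : C h = ∑ g ∈ c.support, aeval (fun l => C (h ^ 2) * X l) (m g) *
          aeval (fun j => C (σ j) + C h * q j) (b g) := hinj (by
        rw [map_sum, Finset.sum_congr rfl fun g hg => by
          rw [map_mul, hsc, hA, hΦ, hm g hg, ← map_mul, mul_assoc], ← map_sum, ← Finset.mul_sum,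
          show ∑ g ∈ c.support, c g * aeval G' (b g) = 1 from hc, mul_one, hC, hΦ, map_C])
      rw [this]
      exact J.sum_mem fun g _ => J.mul_mem_left _ (Ideal.subset_span ⟨g, rfl⟩)
    let θ : R →ₐ[F₀] MvPolynomial τ R ⧸ J :=
      (Ideal.Quotient.mkₐ F₀ J).comp (IsScalarTower.toAlgHom F₀ R _)
    have h7 : Ideal.span (Set.range fun g => aeval σ (b g)) ≤ RingHom.ker θ := by
      rw [Ideal.span_le]
      rintro _ ⟨g, rfl⟩
      have h8 : Ideal.Quotient.mkₐ F₀ J (aeval (fun j => C (σ j) + C h * q j) (b g)) = 0 :=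
        Ideal.Quotient.eq_zero_iff_mem.2 (Ideal.subset_span ⟨g, rfl⟩)
      rw [SetLike.mem_coe, RingHom.mem_ker, comp_aeval_apply, ← h8, comp_aeval_apply]
      congr 2
      funext j
      simp [θ, Ideal.Quotient.eq_zero_iff_mem.2 h6]
    have h8 := h7 (hσ ▸ Submodule.mem_top : (1 : R) ∈ _)
    rw [RingHom.mem_ker, map_one] at h8
    exact Ideal.Quotient.zero_eq_one_iff.1 h8.symm
  · convert h5 using 1
    funext j
    have : (aeval (R := K) fun l => C (algebraMap R K h ^ 2)⁻¹ * X l).comp Ψ = AlgHom.id K _ := by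
      ext1 l
      simp only [Ψ, AlgHom.comp_apply, aeval_X, map_mul, algHom_C, AlgHom.id_apply,
        MvPolynomial.algebraMap_eq, ← mul_assoc, ← C_mul, mul_inv_cancel₀ (pow_ne_zero 2 hh), C_1,
        one_mul]
    simp only [Function.comp_apply, AlgHom.comp_apply, hG]
    exact congr($this (G' j))

theorem Par.poly {F : Type*} [CommRing F] [Algebra F₀ F] {υ : Type} [Finite υ]
    {σ : ι → MvPolynomial υ F} (h : Par F₀ (MvPolynomial υ F) f b σ e) :
    Par F₀ F f b (fun j => constantCoeff (σ j)) e := by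
  obtain ⟨τ, _, G, h1, h2, h3, S, h4, h5⟩ := h
  let Ψ := ((sumAlgEquiv F τ υ).symm.toAlgHom.restrictScalars F₀)
  have hA : ∀ p, aeval (fun j => Ψ (G j)) p = Ψ (aeval G p) := fun p =>
    (comp_aeval_apply G Ψ p).symm
  refine ⟨τ ⊕ υ, inferInstance, fun j => Ψ (G j), fun i => by rw [hA, h1, map_zero], ?_,
    fun j => ?_, S, h4, .of_comp ((sumAlgEquiv F τ υ).toAlgHom.restrictScalars F₀) ?_⟩
  · have := congrArg (Ideal.map Ψ) h2
    rw [Ideal.map_span, Ideal.map_top, ← Set.range_comp] at this
    simpa only [hA, Function.comp_def] using this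
  · have : ((constantCoeff.comp constantCoeff).comp (sumAlgEquiv F τ υ).toRingEquiv.toRingHom) =
        constantCoeff := MvPolynomial.ringHom_ext (by simp) (by rintro (i | i) <;> simp)
    rw [← this]
    simp [Ψ, h3]
  · convert h5 using 1
    funext j
    simp [Ψ]

theorem Par.const {F K : Type*} [Field F] [Algebra F₀ F] (υ : Type) [Finite υ] [Field K]
    [Algebra (MvPolynomial υ F) K] [IsFractionRing (MvPolynomial υ F) K] [Algebra F₀ K]
    [IsScalarTower F₀ (MvPolynomial υ F) K] {σ : ι → F} (hσ : ∃ g, aeval σ (b g) ≠ 0)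
    (h : Par F₀ K f b (fun j => algebraMap (MvPolynomial υ F) K (C (σ j))) e) :
    Par F₀ F f b σ e := by
  obtain ⟨g, hg⟩ := hσ
  have := (Par.frac (σ := fun j => C (σ j)) (Ideal.eq_top_of_isUnit_mem _
    (Ideal.subset_span ⟨g, rfl⟩) ?_) h).poly
  · simpa using this
  · have h1 := hg.isUnit.map (algebraMap F (MvPolynomial υ F))
    rwa [← aeval_map' ] at h1

theorem indep_X {F Ω υ : Type*} [Field F] [Field Ω] [Algebra (MvPolynomial υ F) Ω] [Algebra F Ω]
    [IsScalarTower F (MvPolynomial υ F) Ω]
    (h : Function.Injective (algebraMap (MvPolynomial υ F) Ω)) :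
    AlgebraicIndependent F fun l : υ => algebraMap (MvPolynomial υ F) Ω (X l) :=
  (algebraicIndependent_X υ F).map' (f := IsScalarTower.toAlgHom F _ Ω) h

theorem par_line {F : Type u} [Field F] [CharZero F] {b : β → MvPolynomial ι F} {σ : ι → F}
    (h1 : Dim F b 2) (h2 : ∃ g, aeval σ (b g) ≠ 0) : Par F F (fun _ : I => 0) b σ 0 := by
  refine Par.const (K := FractionRing (MvPolynomial ι F)) ι h2 ?_
  set K := FractionRing (MvPolynomial ι F)
  have hy := indep_X (IsFractionRing.injective (MvPolynomial ι F) K)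
  set y := fun l : ι => algebraMap (MvPolynomial ι F) K (X l)
  have hC : ∀ x, algebraMap (MvPolynomial ι F) K (C x) = algebraMap F K x := fun x =>
    (IsScalarTower.algebraMap_apply F (MvPolynomial ι F) K x).symm
  obtain ⟨S, hS, hS'⟩ := exists_indep (F := F) fun j => algebraMap F K (σ j) + y j
  refine ⟨Unit, inferInstance, fun j => C (algebraMap F K (σ j)) + C (y j) * X (), by simp, ?_,
    fun j => by simpa using (hC _).symm, S, le_trans (card_le_rk hy fun D hD h j => ?_) hS,
    .of_comp ((aeval (R := K) fun _ => (1 : K)).restrictScalars F) (by simpa [Function.comp_def])⟩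
  · by_contra hne
    obtain ⟨M, hM, hle⟩ := Ideal.exists_le_maximal _ hne
    let := Ideal.Quotient.field M
    let π := Ideal.Quotient.mkₐ F M
    have h3 : ∀ g, aeval (fun j => π (C (algebraMap F K (σ j)) + C (y j) * X ())) (b g) = 0 :=
      fun g => by
        rw [← comp_aeval_apply]
        exact Ideal.Quotient.eq_zero_iff_mem.2 (hle (Ideal.subset_span ⟨g, rfl⟩))
    have h4 := h1 _ _ h3
    have h5 : ∀ x, π (C (algebraMap F K x)) = algebraMap F _ x := π.commutes
    simp only [map_add, map_mul, h5] at h3 h4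
    by_cases hs : π (X ()) = 0
    · obtain ⟨g, hg⟩ := h2
      have := h3 g
      simp only [hs, mul_zero, add_zero, aeval_map', map_eq_zero] at this
      exact hg this
    · have h6 := card_le_rk (z := fun j => π (C (y j)))
        (hy.map' (f := π.comp (IsScalarTower.toAlgHom F K _)) (RingHom.injective _)) fun _ _ h => h
      have h7 := rk_le_add (T := im F _) (y := fun j => π (C (y j))) (z := fun _ : Unit => π (X ()))
        (x := fun j => algebraMap F _ (σ j) + π (C (y j)) * π (X ())) fun D hD h h' j => by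
          simpa [mem_kill_im.1 hD, h' (), hs] using h j
      simp only [Fintype.card_unit] at h7
      omega
  · simpa [mem_kill_im.1 hD] using h j

end Pool.Agent.P.MP_84b56d_ag.CI
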