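import Pool.Agent.P.MP_84b56d_ag.CI.StepB

/-! The generic subframe and the generic direction; the induction on the degree. -/

open MvPolynomial

namespace Pool.Agent.P.MP_84b56d_ag.CI

universe u

attribute [-simp] aeval_eq_bind₁

variable {I ι κ' : Type} [Fintype I] [DecidableEq I] [Fintype ι] [Fintype κ']

omit [Fintype I] in
theorem rk_graph {F Ω : Type*} [Field F] [Field Ω] [Algebra F Ω] {κ'' : Type} [Fintype κ'']
    (a : I → ι → MvPolynomial (κ' ⊕ κ'') F) (d : I → ℕ) (c : κ'' × κ' → Ω) (p : κ' ⊕ κ'' → Ω)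
    (w : ι → Ω) [Fintype {e : Mon κ' d // e.1.2 ≠ 0 ∨ 2 ≤ d e.1.1}]
    (p2 : ∀ i, ∑ j, C (w j) * aeval (graph c p) (a i j) = 0)
    (p3 : Good (fun i (l : κ'') => ∑ j, C (w j) * aeval (graph c p) (pderiv (Sum.inr l) (a i j)))
      fun i => d i - 1) :
    rk (im F Ω ∪ Set.range w) (Sum.elim c p) +
      Fintype.card {e : Mon κ' d // e.1.2 ≠ 0 ∨ 2 ≤ d e.1.1} ≤
        Fintype.card ((κ'' × κ') ⊕ (κ' ⊕ κ'')) := by
  let B := fun i l => ∑ j, C (w j) * aeval (graph c p) (pderiv l (a i j))
  refine rk_hit (fun i => Sum.elim (fun v => X v.2 * B i (Sum.inr v.1)) (B i)) (fun e => e.1.1)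
    (Subtype.val_injective.comp Subtype.val_injective) ?_ fun D hD i => ?_
  · rintro ⟨⟨⟨i, α⟩, h1⟩, h2⟩
    by_cases h0 : α = 0
    · subst h0
      refine (p3 i 0 ?_).cols (fun l => Sum.inr (Sum.inr l)) fun _ _ => rfl
      have := h2.resolve_left fun h => h rfl
      simp only [map_zero] at this ⊢
      omega
    · exact (p3.mulX h0 (lt_of_lt_of_le h1 (by simp only; omega))).cols Sum.inl fun _ _ => rfl
  · obtain ⟨h1, h2⟩ := mem_kill_union.1 hD
    have h3 := congrArg (cd D) (p2 i)
    simp only [map_sum, cd_mul, cd_C, h2, map_zero, mul_zero, add_zero, cd_aeval h1,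
      Finset.mul_sum, ← mul_assoc] at h3
    rw [Finset.sum_comm] at h3
    simp only [← Finset.sum_mul] at h3
    rw [← h3]
    simp only [Fintype.sum_sum_type, Fintype.sum_prod_type, Sum.elim_inl, Sum.elim_inr, graph,
      cd_frame, map_add, cd_C, cd_X, add_zero, mul_add, Finset.sum_add_distrib, Finset.mul_sum, B]
    simp only [← Finset.mul_sum]
    rw [add_comm, add_assoc]
    refine congrArg₂ _ (Finset.sum_congr rfl fun _ _ => mul_comm _ _) (congrArg₂ _
      (Finset.sum_congr rfl fun _ _ => mul_comm _ _) (Finset.sum_congr rfl fun _ _ => ?_))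
    rw [Finset.mul_sum]
    exact Finset.sum_congr rfl fun _ _ => by ring

theorem stepA2 {F F₁ : Type u} [Field F] [Field F₁] [Algebra F F₁] [CharZero F] {D : ℕ}
    [Fintype (Mon κ' fun _ : I => D)]
    (ih : Core.{u} I κ' D) {β : Type u} {f : I → MvPolynomial ι F} {d : I → ℕ}
    {b : β → MvPolynomial ι F} {L : ι → MvPolynomial (κ' ⊕ Mon κ' fun _ : I => D) F}
    (h1 : ∀ i, d i ≤ D + 1)
    (h2 : ∀ i, Dg (f i) (d i + 1)) (h3 : ∀ j, Dg (L j) 2) (h4 : ∀ i, aeval L (f i) = 0)
    (h5 : Good (fun i j => aeval L (pderiv j (f i))) d) (h6 : Dim F (Sum.elim f b) (nz d + 2))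
    (h7 : Dim F (fun g => aeval L (b g)) 2) (c : (Mon κ' fun _ : I => D) × κ' → F₁)
    (p : (κ' ⊕ Mon κ' fun _ : I => D) → F₁) (p1 : AlgebraicIndependent F (Sum.elim c p))
    (p5 : ∃ g, aeval (fun j => aeval p (L j)) (b g) ≠ 0) :
    Par F F₁ f b (fun j => aeval p (L j)) (nz d) := by
  classical
  have : CharZero F₁ := charZero_of_injective_algebraMap (algebraMap F F₁).injective
  have := Fintype.ofFinite (Mon κ' d)
  set a := fun i j => aeval L (pderiv j (f i)) with ha
  have hd : ∀ i j, Dg (a i j) (d i) := fun i j => ((h2 i).pderiv j).aeval h3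
  let s : κ' → MvPolynomial (κ' ⊕ Mon κ' fun _ : I => D) F₁ :=
    fun l => X (Sum.inl l) - C (p (Sum.inl l))
  have s1 : ∀ l, Dg (s l) 2 := fun l => (dg_X _).sub ((dg_C _).mono (by omega))
  have s2 : ∀ l, aeval (graph c p) (s l) = X l := fun l => by simp [s, graph]
  have s3 : ∀ P : MvPolynomial κ' F₁, aeval (graph c p) (aeval s P) = P := fun P => by
    rw [aeval_aeval, funext s2, aeval_X_left_apply]
  have s4 : ∀ l (P : MvPolynomial κ' F₁), pderiv (Sum.inr l) (aeval s P) = 0 := fun l P => by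
    induction P using MvPolynomial.induction_on with
    | C a => simp
    | add p q hp hq => simp only [map_add, hp, hq, add_zero]
    | mul_X p j hp => simp [hp, s]
  have G1 := h5.map (algebraMap F F₁)
  have G2 := G1.comp (aeval (graph c p)) s s1 s2
  simp only [aeval_map_algebraMap] at G2
  choose W hW using fun e : Mon κ' d => G2 e.1.1 e.1.2 e.2
  let ρ : Mon κ' d → MvPolynomial ι F₁ := fun e =>
    ∑ j, C (coeff e.1.2 (aeval (graph c p) (a e.1.1 j))) * X j
  let wR : ι → MvPolynomial ι F₁ := fun j => X j - ∑ e, C (W e j) * ρ e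
  have w1 : ∀ i, ∑ j, C (wR j) * map C (aeval (graph c p) (a i j)) = 0 := fun i =>
    Dg.ext (dg_sum fun j _ => (((hd i j).aeval (dg_graph c p)).map _).C_mul _) dg_zero
      fun α hα => by
        have : ∀ e, ∑ j, W e j * coeff α (aeval (graph c p) (a i j)) =
            if e = ⟨(i, α), hα⟩ then 1 else 0 := fun e => by
          have := congrArg (coeff α) (hW e i)
          simp only [coeff_sum, coeff_C_mul] at this
          rw [this]
          by_cases h : i = e.1.1 <;> simp [h, coeff_monomial, Subtype.ext_iff, Prod.ext_iff, eq_comm]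
        simp only [coeff_sum, coeff_C_mul, coeff_map, wR, sub_mul, Finset.sum_sub_distrib,
          Finset.sum_mul, mul_right_comm _ (ρ _), ← C_mul, coeff_zero]
        rw [Finset.sum_comm]
        simp only [← Finset.sum_mul, ← map_sum, this]
        rw [Finset.sum_eq_single (⟨(i, α), hα⟩ : Mon κ' d) (fun _ _ h => by simp [h]) (by simp)]
        simp [ρ, mul_comm]
  obtain ⟨w₀, hw₀⟩ := G1.surj (fun i => ∑ l : Mon κ' fun _ : I => D,
      if l.1.1 = i ∧ l.1.2.degree < d i - 1 then
        (X (Sum.inr l) - aeval s (graph c p (Sum.inr l))) * aeval s (monomial l.1.2 (1 : F₁))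
      else 0) fun i => dg_sum fun l _ => by
    split_ifs with h
    · exact (((dg_X _).sub ((dg_graph c p _).aeval s1)).mul (a := 1)
        ((dg_monomial h.2 _).aeval s1)).mono (by have := h.2; omega)
    · exact dg_zero
  have w2 : ∀ j, eval w₀ (wR j) = w₀ j := fun j => by
    have : ∀ e, eval w₀ (ρ e) = 0 := fun e => by
      have := congrArg (fun q => coeff e.1.2 (aeval (graph c p) q)) (hw₀ e.1.1)
      simp only [map_sum, map_mul, algHom_C, MvPolynomial.algebraMap_eq, aeval_map_algebraMap,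
        coeff_sum, coeff_C_mul, apply_ite (aeval (graph c p)), map_sub, s3, aeval_X, sub_self,
        zero_mul, map_zero, ite_self, coeff_zero, Finset.sum_const_zero] at this
      simpa [ρ, mul_comm] using this
    simp [wR, this]
  let K := FractionRing (MvPolynomial ι F₁)
  have hC : ∀ x, algebraMap (MvPolynomial ι F₁) K (C x) = algebraMap F₁ K x := fun x =>
    (IsScalarTower.algebraMap_apply F₁ (MvPolynomial ι F₁) K x).symm
  have G3 := Good.gen (d := fun i => d i - 1)
    (a := fun i l => ∑ j, C (wR j) * map C (aeval (graph c p) (pderiv (Sum.inr l) (a i j))))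
    (fun i l => dg_sum fun j _ => ((((hd i j).pderiv _).aeval (dg_graph c p)).map _).C_mul _)
    (eval w₀) (algebraMap _ K) (IsFractionRing.injective _ _) fun i α hα => by
      refine Hit.cols (a' := fun i' (_ : Unit) => if i' = i then monomial α 1 else 0)
        ⟨1, by simp⟩ (fun _ => ⟨(i, α), by have := h1 i; simp only at hα ⊢; omega⟩) fun i' _ => ?_
      have := congrArg (fun q => aeval (graph c p) (pderiv (Sum.inr
        (⟨(i, α), by have := h1 i; simp only at hα ⊢; omega⟩ : Mon κ' fun _ : I => D)) q)) (hw₀ i')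
      simp only [map_sum, pderiv_C_mul, pderiv_map, map_mul, algHom_C, MvPolynomial.algebraMap_eq,
        aeval_map_algebraMap] at this
      simp only [map_sum, map_mul, map_C, w2, map_map,
        show (eval w₀).comp C = RingHom.id F₁ from RingHom.ext fun _ => eval_C _, map_id]
      rw [this, Finset.sum_eq_single ⟨(i, α), by have := h1 i; simp only at hα ⊢; omega⟩
        (fun l _ h => ?_) (by simp)]
      · by_cases h : i' = i
        · simp [h, hα, s3, s4]
        · simp [h, Ne.symm h]
      · split_ifs <;> simp [s4, h]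
  have hg : ∀ {Ω : Type u} [Field Ω] [Algebra F Ω] [Algebra F₁ Ω] [IsScalarTower F F₁ Ω]
      (q : MvPolynomial (κ' ⊕ Mon κ' fun _ : I => D) F),
      map (algebraMap F₁ Ω) (aeval (graph c p) q) =
        aeval (graph (fun v => algebraMap F₁ Ω (c v)) fun v => algebraMap F₁ Ω (p v)) q :=
    fun q => (map_aeval' (IsScalarTower.toAlgHom F F₁ _) _ q).trans
      (by congr 2; exact funext (map_graph _ c p))
  have hK : (algebraMap (MvPolynomial ι F₁) K).comp C = algebraMap F₁ K := RingHom.ext hC
  simp only [map_sum, map_mul, map_C, map_map, hK, hg] at G3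
  have w3 := fun i => congrArg (map (algebraMap _ K)) (w1 i)
  simp only [map_sum, map_mul, map_C, map_map, hK, hg, map_zero] at w3
  refine Par.const (K := K) ι p5 ?_
  simp only [hC, ← aeval_map']
  refine stepB ih h1 h2 h3 h4 h5 h6 h7 _ _ _ ?_ w3 G3 (fun Ω _ _ _ _ => ?_)
    (p5.imp fun g hg => by simpa only [aeval_map', map_ne_zero] using hg)
  · have := p1.map' (f := IsScalarTower.toAlgHom F F₁ K) (RingHom.injective _)
    rwa [Sum.comp_elim] at this
  let : Algebra F₁ Ω := ((algebraMap K Ω).comp (algebraMap F₁ K)).toAlgebra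
  let : Algebra (MvPolynomial ι F₁) Ω := ((algebraMap K Ω).comp (algebraMap _ K)).toAlgebra
  have hθ : ∀ x, algebraMap (MvPolynomial ι F₁) Ω x = algebraMap K Ω (algebraMap _ K x) :=
    fun _ => rfl
  have hθ' : ∀ x, algebraMap F₁ Ω x = algebraMap K Ω (algebraMap _ K x) := fun _ => rfl
  have : IsScalarTower F₁ (MvPolynomial ι F₁) Ω :=
    .of_algebraMap_eq fun x => congrArg (algebraMap K Ω) (hC x).symm
  have : IsScalarTower F F₁ Ω := .of_algebraMap_eq fun x => by
    rw [hθ', ← IsScalarTower.algebraMap_apply F F₁ K, ← IsScalarTower.algebraMap_apply F K Ω]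
  have r1 := card_le_rk (indep_X (F := F₁) (Ω := Ω) (υ := ι) ((algebraMap K Ω).injective.comp
    (IsFractionRing.injective _ K))) fun _ _ h => h
  have r2 := rk_le_add (T := im F₁ Ω) (y := fun j => algebraMap (MvPolynomial ι F₁) Ω (X j))
    (x := fun j => algebraMap _ Ω (wR j))
    (z := Sum.elim (fun e : {e : Mon κ' d // e.1.2 ≠ 0 ∨ 2 ≤ d e.1.1} => algebraMap _ Ω (ρ e))
      fun i : {i // d i = 1} => algebraMap _ Ω (ρ ⟨(i, 0), by simp [i.2]⟩)) fun D hD t1 t2 j => by
    have t3 : ∀ e, D (algebraMap _ Ω (ρ e)) = 0 := by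
      rintro ⟨⟨i, α⟩, h⟩
      by_cases h' : α ≠ 0 ∨ 2 ≤ d i
      · exact t2 (Sum.inl ⟨_, h'⟩)
      · obtain ⟨rfl, h'⟩ := (by simpa using h' : α = 0 ∧ d i < 2)
        exact t2 (Sum.inr ⟨i, by simp only [map_zero] at h; omega⟩)
    have t4 : ∀ x, D (algebraMap (MvPolynomial ι F₁) Ω (C x)) = 0 := fun x => by
      rw [hθ, hC]; exact mem_kill_im.1 hD x
    simpa [wR, t3, t4] using t1 j
  have r3 := card_le_rk (z := fun v => algebraMap F₁ Ω (Sum.elim c p v))
    (p1.map' (f := IsScalarTower.toAlgHom F F₁ Ω) (RingHom.injective _)) fun _ _ h => h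
  have r4 := rk_exch (w := fun v => algebraMap F₁ Ω (Sum.elim c p v))
    (y := fun j => algebraMap _ Ω (wR j)) (x := fun j => algebraMap _ Ω (wR j))
    (z := Sum.elim (fun v => algebraMap F₁ Ω (c v)) fun v => algebraMap F₁ Ω (p v))
    (kill_tower F F₁) (fun D hD _ => mem_kill_im.1 hD _)
    fun D _ t1 t2 => ⟨fun v => by have := t2 v; cases v <;> exact this, t1⟩
  have hΩ : (algebraMap (MvPolynomial ι F₁) Ω).comp C = algebraMap F₁ Ω :=
    RingHom.ext fun x => congrArg (algebraMap K Ω) (hC x)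
  have r5 := rk_graph a d (fun v => algebraMap F₁ Ω (c v)) (fun v => algebraMap F₁ Ω (p v))
    (fun j => algebraMap _ Ω (wR j))
    (fun i => by
      have := congrArg (map (algebraMap _ Ω)) (w1 i)
      simpa only [map_sum, map_mul, map_C, map_map, hΩ, hg, map_zero] using this)
    (by
      have := G3.map (algebraMap K Ω)
      simp only [← hg, map_sum, map_mul, map_C, map_map] at this ⊢
      exact this)
  simp only [Fintype.card_sum] at r2 r3 r5
  change _ ≤ rk _ (fun j => algebraMap _ Ω (wR j)) + Fintype.card {i // d i = 1}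
  omega

theorem step {D : ℕ} [Fintype (Mon κ' fun _ : I => D)] (ih : Core.{u} I κ' D) :
    Core.{u} I (κ' ⊕ Mon κ' fun _ : I => D) (D + 1) := by
  intro F _ _ ι _ β f d b L h1 h2 h3 h4 h5 h6 h7 h8
  obtain ⟨τ, _, G, -, q2, q3, S, q4, q5⟩ := par_line (I := Empty) (σ := fun _ => 0) h7
    (by simpa only [cc_eq] using h8)
  obtain rfl : S = Finset.univ := Finset.eq_univ_of_card _ (le_antisymm S.card_le_univ q4)
  simp only [aeval_aeval] at q2
  have e : (fun j => constantCoeff (L j)) = fun j => constantCoeff (aeval G (L j)) :=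
    funext fun j => by simp only [cc_eq, aeval_aeval] at q3 ⊢; rw [funext q3]
  rw [e]
  let K := FractionRing (MvPolynomial τ F)
  refine (Par.frac (K := K) q2 ?_).poly
  have q6 : ∃ g, aeval (fun j => algebraMap _ K (aeval G (L j))) (b g) ≠ 0 := by
    by_contra h
    simp only [aeval_map', not_exists, not_not,
      map_eq_zero_iff _ (IsFractionRing.injective (MvPolynomial τ F) K)] at h
    exact bot_ne_top ((Ideal.span_eq_bot.2 (Set.forall_mem_range.2 h)).symm.trans q2)
  let K₁ := FractionRing (MvPolynomial ((Mon κ' fun _ : I => D) × κ') K)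
  have hC : ∀ x, algebraMap (MvPolynomial ((Mon κ' fun _ : I => D) × κ') K) K₁ (C x) =
      algebraMap K K₁ x := fun x => (IsScalarTower.algebraMap_apply K _ K₁ x).symm
  refine Par.const (K := K₁) ((Mon κ' fun _ : I => D) × κ') q6 ?_
  simp only [hC, ← aeval_map'] at q6 ⊢
  exact stepA2 ih h1 h2 h3 h4 h5 h6 h7 _ _
    (((q5.comp (fun j => ⟨j, Finset.mem_univ j⟩) fun _ _ h => congrArg Subtype.val h).map'
      (f := IsScalarTower.toAlgHom F _ K) (IsFractionRing.injective _ _)).sumElim_comp
      (indep_X (IsFractionRing.injective _ K₁)))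
    (q6.imp fun g hg => by simpa only [aeval_map', map_ne_zero] using hg)

theorem core_zero : Core.{u} I Empty 0 := by
  intro F _ _ ι _ β f d b L h1 h2 _ h4 _ h6 _ h8
  have h0 : ∀ i, d i = 0 := fun i => Nat.le_zero.1 (h1 i)
  have hf : f = fun _ => 0 := funext fun i => by
    have h := h2 i
    have h' := h4 i
    rw [h0, zero_add] at h
    rw [h.eq_C] at h' ⊢
    simpa using h'
  have hn : nz d = 0 := by simp [nz, h0]
  rw [hn] at h6 ⊢
  subst hf
  exact par_line (fun Ω _ _ z hz => h6 Ω z (Sum.forall.2 ⟨fun _ => map_zero _, hz⟩))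
    (by simpa only [cc_eq, aeval_aeval] using h8)

theorem core (I : Type) [Fintype I] [DecidableEq I] (D : ℕ) :
    ∃ (κ : Type) (_ : Fintype κ), Core.{u} I κ D := by
  induction D with
  | zero => exact ⟨Empty, inferInstance, core_zero⟩
  | succ D ih =>
    obtain ⟨κ, _, ih⟩ := ih
    have := Fintype.ofFinite (Mon κ fun _ : I => D)
    exact ⟨_, inferInstance, step ih⟩

end Pool.Agent.P.MP_84b56d_ag.CI
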