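import Pool.Agent.P.MP_84b56d_ag.CI.Scale

/-! The residual equations in the span of a frame and one more direction. -/

open MvPolynomial

namespace Pool.Agent.P.MP_84b56d_ag.CI

universe u

attribute [-simp] aeval_eq_bind₁

theorem taylor {F S ι : Type*} [CommRing F] [CommRing S] [Algebra F S] [Fintype ι] (x y : ι → S)
    (s : S) (P : MvPolynomial ι F) : ∃ h, aeval (fun j => x j + s * y j) P =
      aeval x P + s * (∑ j, y j * aeval x (pderiv j P) + s * h) := by
  classical
  induction P using MvPolynomial.induction_on with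
  | C a => exact ⟨0, by simp⟩
  | add p q hp hq =>
    obtain ⟨h, hp⟩ := hp
    obtain ⟨h', hq⟩ := hq
    exact ⟨h + h', by simp only [map_add, hp, hq, mul_add, Finset.sum_add_distrib]; ring⟩
  | mul_X p j hp =>
    obtain ⟨h, hp⟩ := hp
    refine ⟨h * x j + (∑ j, y j * aeval x (pderiv j p) + s * h) * y j, ?_⟩
    have : ∑ i, y i * aeval x (pderiv i (p * X j)) =
        y j * aeval x p + x j * ∑ i, y i * aeval x (pderiv i p) := by
      simp only [Derivation.leibniz, smul_eq_mul, map_add, map_mul, aeval_X, mul_add,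
        Finset.sum_add_distrib, Finset.mul_sum, mul_left_comm]
      rw [Finset.sum_eq_single j (fun v _ h => by simp [pderiv_X_of_ne h.symm]) (by simp)]
      simp [mul_comm]
    rw [this, map_mul, map_mul, hp, aeval_X, aeval_X]
    ring

theorem indep_of_comp {R A B ι : Type*} [CommRing R] [CommRing A] [CommRing B] [Algebra R A]
    [Algebra R B] (φ : A →ₐ[R] B) {x : ι → A} {y : ι → B} (hy : AlgebraicIndependent R y)
    (h : ∀ i, φ (x i) = y i) : AlgebraicIndependent R x :=
  .of_comp φ (by rwa [show ⇑φ ∘ x = y from funext h])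

theorem cc_eq {R κ : Type*} [CommRing R] (q : MvPolynomial κ R) :
    constantCoeff q = aeval (fun _ => (0 : R)) q := (aeval_zero' q).symm

theorem aeval_aeval {F F' S σ τ : Type*} [CommRing F] [CommRing F'] [CommRing S] [Algebra F F']
    [Algebra F' S] [Algebra F S] [IsScalarTower F F' S] (y : τ → S) (Λ : σ → MvPolynomial τ F')
    (q : MvPolynomial σ F) : aeval y (aeval Λ q) = aeval (fun j => aeval y (Λ j)) q :=
  comp_aeval_apply Λ ((aeval (R := F') y).restrictScalars F) q

theorem nz_eq {I : Type} [Fintype I] (d : I → ℕ) : nz d = nz (fun i => d i - 1) + c1 d := by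
  simp only [nz, c1, Fintype.card_subtype, Finset.card_filter, ← Finset.sum_add_distrib]
  refine Finset.sum_congr rfl fun i _ => ?_
  split_ifs <;> omega

theorem Good.surj_eval {F Ω I J κ : Type*} [Field F] [Field Ω] [Algebra F Ω] [Fintype J]
    [DecidableEq I] [Finite I] {a : I → J → MvPolynomial κ F} {d : I → ℕ} (h : Good a d)
    (x : κ → Ω) :
    Function.Surjective (Matrix.of fun (i : {i // 1 ≤ d i}) j => aeval x (a i j)).mulVec := by
  choose u hu using fun i : {i // 1 ≤ d i} => h i 0 (by simpa using Nat.lt_of_succ_le i.2)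
  refine Matrix.mulVec_surjective_iff_exists_right_inverse.2
    ⟨Matrix.of fun j i => algebraMap F Ω (u i j), ?_⟩
  ext i i'
  have := congrArg (aeval x) (hu i' i)
  simp only [map_sum, map_mul, algHom_C] at this
  simp only [Matrix.mul_apply, Matrix.of_apply, mul_comm, this, Matrix.one_apply, Subtype.ext_iff]
  split_ifs <;> simp

variable {F F' : Type u} [Field F] [Field F'] [Algebra F F'] {I ι κ : Type} [Fintype I]
  [DecidableEq I] [Fintype ι]

section Count

variable {Ω : Type u} [Field Ω] [Algebra F Ω] [Algebra F' Ω] [IsScalarTower F F' Ω] [Fintype κ]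

theorem count_ne (L : ι → MvPolynomial κ F) (w : ι → F') {y : Option κ → Ω} (hy : y none ≠ 0) :
    rk (im F Ω) (fun j => algebraMap F' Ω (w j)) + rk (im F' Ω) y ≤
      rk (im F Ω) (fun j => aeval (fun l => y (some l)) (L j) + y none * algebraMap F' Ω (w j)) +
        Fintype.card (Option κ) := by
  refine (rk_exch (z := y) (kill_tower F F') (fun D hD _ => mem_kill_im.1 hD _)
    fun D hD h1 h2 => ⟨fun j => ?_, h2⟩).trans (Nat.add_le_add_left (rk_le_card _) _)
  simpa [der_aeval hD fun l => h2 (some l), h2, hy] using h1 j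

theorem count_eq {a : I → ι → MvPolynomial κ F} {d : I → ℕ} (ha : Good a d) (w : ι → F')
    {y : Option κ → Ω} (hy : y none = 0)
    (h : ∀ i, ∑ j, algebraMap F' Ω (w j) * aeval (fun l => y (some l)) (a i j) = 0) :
    rk (im F Ω) (fun j => algebraMap F' Ω (w j)) + rk (im F' Ω) y + nz d ≤
      rk (im F Ω) (fun l => y (some l)) + Fintype.card ι := by
  have h1 := rk_exch (x := fun l => y (some l)) (z := fun j => algebraMap F' Ω (w j)) (y := y)
    (kill_tower F F') (fun D hD j => mem_kill_im.1 hD (w j))
    fun D hD h1 h2 => ⟨h2, fun o => by cases o <;> simp [hy, h1]⟩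
  have h2 := rk_jac (T := im F Ω ∪ Set.range fun l => y (some l))
    (z := fun j => algebraMap F' Ω (w j)) _ (ha.surj_eval fun l => y (some l)) fun D hD i => by
      obtain ⟨h2, h3⟩ := mem_kill_union.1 hD
      simpa [der_aeval h2 h3] using congrArg D (h i)
  unfold nz
  omega

end Count

theorem stepB [CharZero F] {κ' κ'' : Type} [Fintype κ'] [Fintype κ''] {D : ℕ}
    (ih : Core.{u} I κ' D) {β : Type u} {f : I → MvPolynomial ι F} {d : I → ℕ}
    {b : β → MvPolynomial ι F} {L : ι → MvPolynomial (κ' ⊕ κ'') F} (h1 : ∀ i, d i ≤ D + 1)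
    (h2 : ∀ i, Dg (f i) (d i + 1)) (h3 : ∀ j, Dg (L j) 2) (h4 : ∀ i, aeval L (f i) = 0)
    (h5 : Good (fun i j => aeval L (pderiv j (f i))) d) (h6 : Dim F (Sum.elim f b) (nz d + 2))
    (h7 : Dim F (fun g => aeval L (b g)) 2) (c : κ'' × κ' → F') (p : κ' ⊕ κ'' → F') (w : ι → F')
    (p1 : AlgebraicIndependent F (Sum.elim c p))
    (p2 : ∀ i, ∑ j, C (w j) * aeval (graph c p) (aeval L (pderiv j (f i))) = 0)
    (p3 : Good (fun i (l : κ'') => ∑ j, C (w j) *
      aeval (graph c p) (pderiv (Sum.inr l) (aeval L (pderiv j (f i))))) fun i => d i - 1)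
    (p4 : ∀ (Ω : Type u) [Field Ω] [Algebra F Ω] [Algebra F' Ω] [IsScalarTower F F' Ω],
      Fintype.card ι ≤ rk (im F Ω) (fun j => algebraMap F' Ω (w j)) + c1 d)
    (p5 : ∃ g, aeval (fun j => aeval p (L j)) (b g) ≠ 0) :
    Par F F' f b (fun j => aeval p (L j)) (nz d) := by
  classical
  have : CharZero F' := charZero_of_injective_algebraMap (algebraMap F F').injective
  let ψ : MvPolynomial (κ' ⊕ κ'') F →ₐ[F] MvPolynomial (Option (κ' ⊕ κ'')) F' :=
    aeval fun l => X (some l)
  let Λ : ι → MvPolynomial (Option (κ' ⊕ κ'')) F' := fun j => ψ (L j) + X none * C (w j)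
  choose h hh using fun i => taylor (fun j => ψ (L j)) (fun j => C (w j)) (X none) (f i)
  simp only [← comp_aeval_apply, h4, map_zero, zero_add] at hh
  set g := fun i => ∑ j, C (w j) * ψ (aeval L (pderiv j (f i))) + X none * h i with hg
  have hψ : ∀ {S : Type u} [CommRing S] [Algebra F' S] [Algebra F S] [IsScalarTower F F' S]
      (y : Option (κ' ⊕ κ'') → S) q, aeval y (ψ q) = aeval (fun l => y (some l)) q :=
    fun y q => by simp only [ψ, aeval_aeval, aeval_X]
  have hΛ : ∀ {S : Type u} [CommRing S] [Algebra F' S] [Algebra F S] [IsScalarTower F F' S]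
      (y : Option (κ' ⊕ κ'') → S) (q : MvPolynomial ι F), aeval y (aeval Λ q) =
        aeval (fun j => aeval (fun l => y (some l)) (L j) + y none * algebraMap F' S (w j)) q :=
    fun y q => by simp only [aeval_aeval, Λ, map_add, map_mul, hψ, aeval_X, algHom_C]
  have hd : ∀ l q, pderiv (some l) (ψ q) = ψ (pderiv l q) := fun l q => by
    induction q using MvPolynomial.induction_on with
    | C a => simp [ψ]
    | add p q hp hq => simp only [map_add, hp, hq]
    | mul_X p j hp =>
      simp only [map_mul, Derivation.leibniz, hp, smul_eq_mul, map_add]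
      by_cases hj : j = l <;> simp [ψ, hj]
  have hg0 : ∀ {S : Type u} [CommRing S] [Algebra F' S] [Algebra F S] [IsScalarTower F F' S]
      (y : Option (κ' ⊕ κ'') → S) i, y none = 0 → aeval y (g i) =
        ∑ j, algebraMap F' S (w j) * aeval (fun l => y (some l)) (aeval L (pderiv j (f i))) :=
    fun y i hy => by simp only [hg, map_add, map_sum, map_mul, hψ, aeval_X, algHom_C, hy,
      zero_mul, add_zero]
  have hn := nz_eq d
  let L' : Option (κ' ⊕ κ'') → MvPolynomial κ' F' := fun o => o.elim 0 (graph c p)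
  have hc : ∀ j, constantCoeff (graph c p j) = p j := by rintro (j | j) <;> simp [graph, frame]
  obtain ⟨τ, _, G, q1, q2, q3, S, q4, q5⟩ := ih F' _ β g (fun i => d i - 1)
    (fun m => aeval Λ (b m)) L' (fun i => by have := h1 i; omega)
    (fun i => (Dg.of_X_mul (hh i ▸ (h2 i).aeval fun j => ((h3 j).aeval fun _ => dg_X _).add
      ((dg_X _).mul (a := 1) (dg_C _)))).mono (by omega))
    (fun o => by cases o; exacts [dg_zero, dg_graph c p _]) (fun i => (hg0 L' i rfl).trans (p2 i))
    (fun i α hα => (p3 i α hα).cols (fun l => some (Sum.inr l)) fun i l => by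
      simp [hg, hd, hψ, L'])
    (fun Ω _ _ y hy => by
      let : Algebra F Ω := ((algebraMap F' Ω).comp (algebraMap F F')).toAlgebra
      have : IsScalarTower F F' Ω := .of_algebraMap_eq' rfl
      have r1 := p4 Ω
      have r2 := fun m => (hΛ y _).symm.trans (hy (Sum.inr m))
      by_cases hs : y none = 0
      · have r3 := count_eq h5 w hs fun i => (hg0 y i hs).symm.trans (hy (Sum.inl i))
        have r4 := h7 Ω (fun l => y (some l)) fun m => by simpa [aeval_aeval, hs] using r2 m
        rw [Fintype.card_option]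
        omega
      · have r3 := count_ne (F' := F') L w hs
        have r4 := h6 Ω _ (Sum.forall.2 ⟨fun i => (hΛ y (f i)).symm.trans (by
          rw [hh, map_mul, show aeval y (g i) = 0 from hy (Sum.inl i), mul_zero]), r2⟩)
        omega)
    (fun Ω _ _ μ hμ => by
      let : Algebra F Ω := ((algebraMap F' Ω).comp (algebraMap F F')).toAlgebra
      have : IsScalarTower F F' Ω := .of_algebraMap_eq' rfl
      have r1 := h7 Ω (fun l => aeval μ (graph c p l)) fun m => by
        simpa [aeval_aeval, hΛ, L', Λ, hψ] using hμ m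
      have r2 := card_le_rk (z := fun v => algebraMap F' Ω (Sum.elim c p v))
        (p1.map' (f := IsScalarTower.toAlgHom F F' Ω) (RingHom.injective _)) fun _ _ h => h
      have r3 := (rk_exch (w := fun v => algebraMap F' Ω (Sum.elim c p v)) (y := μ)
        (x := fun l => aeval μ (graph c p l)) (z := Sum.elim (fun v => algebraMap F' Ω (c v)) μ)
        (kill_tower F F') (fun D hD _ => mem_kill_im.1 hD _) fun D _ s1 s2 => by
          obtain ⟨s2, s3⟩ := Sum.forall.1 s2
          simp only [Sum.elim_inl, Sum.elim_inr] at s2 s3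
          refine ⟨Sum.forall.2 ⟨s2, fun l => ?_⟩, s3⟩
          have := s1 l
          rcases l with l | l <;> simpa [graph, frame, s2, s3] using this).trans
        (Nat.add_le_add_left (rk_le_card _) _)
      simp only [Fintype.card_sum] at r1 r2 r3
      omega)
    (p5.imp fun m hm => by
      rw [cc_eq, aeval_aeval, hΛ]
      simpa [← cc_eq, L', hc] using hm)
  let Ω := FractionRing (MvPolynomial τ F')
  let θ := IsScalarTower.toAlgHom F' (MvPolynomial τ F') Ω
  have r1 := p4 Ω
  have r2 := finset_le_rk (z := fun o => θ (G o)) (q5.map' (f := θ) (IsFractionRing.injective _ _))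
  obtain ⟨S', r3, r4⟩ := exists_indep (F := F) fun j =>
    aeval (fun l => θ (G (some l))) (L j) + θ (G none) * algebraMap F' Ω (w j)
  refine ⟨τ, ‹_›, fun j => aeval (fun l => G (some l)) (L j) + G none * C (w j), fun i => ?_, ?_,
    fun j => ?_, S', ?_, indep_of_comp (θ.restrictScalars F) r4 fun j => ?_⟩
  · exact (hΛ G (f i)).symm.trans (by rw [hh, map_mul, q1, mul_zero])
  · simpa only [hΛ, MvPolynomial.algebraMap_eq] using q2
  · rw [map_add, map_mul, q3, cc_eq, aeval_aeval]
    simp [q3, L', hc]
  · by_cases hs : θ (G none) = 0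
    · have r5 := count_eq (y := fun o => θ (G o)) h5 w hs fun i =>
        (hg0 (fun o => θ (G o)) i hs).symm.trans (by rw [← comp_aeval_apply G θ, q1, map_zero])
      have r6 := rk_le_card (T := im F Ω) fun l => θ (G (some l))
      rw [Fintype.card_option] at q4
      omega
    · have r5 := count_ne (F' := F') (y := fun o => θ (G o)) L w hs
      omega
  · simp only [map_add, map_mul, comp_aeval_apply]
    exact congrArg _ (congrArg _ (θ.commutes _))

end Pool.Agent.P.MP_84b56d_ag.CI
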