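import Pool.Agent.P.MP_84b56d_ag.CI.Fin
import Pool.Agent.P.MP_84b56d_ag.Dim

/-! Existence of a good frame, and the algebraic form of the theorem. -/

open MvPolynomial

namespace Pool.Agent.P.MP_84b56d_ag.CI

universe u

attribute [-simp] aeval_eq_bind₁

section Td

variable {k : Type*} [Field k] {σ : Type} [Finite σ]

theorem krull {E : Type*} (P₀ Q : Ideal (MvPolynomial σ k)) [P₀.IsPrime] [Q.IsPrime] (h : P₀ ≤ Q)
    (g : E → MvPolynomial σ k) (hg : ∀ e, g e ∈ Q) (s : Finset E) :
    ∃ P : Ideal (MvPolynomial σ k), P.IsPrime ∧ P₀ ≤ P ∧ P ≤ Q ∧ (∀ e ∈ s, g e ∈ P) ∧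
      td P₀ ≤ td P + s.card := by
  classical
  induction s using Finset.induction_on with
  | empty => exact ⟨P₀, ‹_›, le_rfl, h, by simp, by simp⟩
  | insert e s he ih =>
    obtain ⟨P, _, h1, h2, h3, h4⟩ := ih
    obtain ⟨P', h5, h6⟩ := Ideal.exists_minimalPrimes_le (I := P ⊔ Ideal.span {g e})
      (sup_le h2 ((Ideal.span_singleton_le_iff_mem _).2 (hg e)))
    have h7 := td_le_succ _ h5
    refine ⟨P', h5.isPrime, h1.trans (le_sup_left.trans h5.le), h6,
      Finset.forall_mem_insert _ _ _ |>.2 ⟨h5.le (Ideal.mem_sup_right (Ideal.subset_span rfl)),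
        fun e he => h5.le (Ideal.mem_sup_left (h3 e he))⟩, ?_⟩
    rw [Finset.card_insert_of_notMem he]
    omega

theorem card_le_td {A : Type*} [CommRing A] [IsDomain A] [Algebra k A] {z : σ → A} {S : Finset σ}
    (hS : AlgebraicIndependent k fun j : S => z j) :
    S.card ≤ td (RingHom.ker (aeval z : MvPolynomial σ k →ₐ[k] A)) := by
  have := RingHom.ker_isPrime (aeval z : MvPolynomial σ k →ₐ[k] A)
  refine le_td _ (fun j => Ideal.Quotient.mk _ (X (S.equivFin.symm j : σ)))
    (indep_of_comp (Ideal.kerLiftAlg (aeval z : MvPolynomial σ k →ₐ[k] A))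
      (y := fun j => z (S.equivFin.symm j)) (hS.comp _ S.equivFin.symm.injective) fun j => ?_)
  rw [Ideal.kerLiftAlg_mk, aeval_X]

/-- the generic point of a prime ideal -/
theorem generic {k : Type u} [Field k] [CharZero k] (P : Ideal (MvPolynomial σ k)) [P.IsPrime] :
    ∃ (L : Type u) (_ : Field L) (_ : Algebra k L) (x : σ → L), (∀ g, aeval x g = 0 ↔ g ∈ P) ∧
      ∀ (Ω : Type u) [Field Ω] [Algebra k Ω] (ψ : L →ₐ[k] Ω),
        td P ≤ rk (im k Ω) fun v => ψ (x v) := by
  let θ := IsScalarTower.toAlgHom k (MvPolynomial σ k ⧸ P) (FractionRing (MvPolynomial σ k ⧸ P))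
  have hθ : Function.Injective θ := IsFractionRing.injective _ _
  refine ⟨_, inferInstance, inferInstance, fun v => θ (Ideal.Quotient.mkₐ k P (X v)), fun g => ?_, fun Ω _ _ ψ => ?_⟩
  · rw [← comp_aeval_apply, ← comp_aeval_apply, aeval_X_left_apply, map_eq_zero_iff _ hθ]
    exact Ideal.Quotient.eq_zero_iff_mem
  · obtain ⟨e, he⟩ := td_basis P
    simpa using card_le_rk (z := fun v => ψ (θ (Ideal.Quotient.mkₐ k P (X v))))
      ((he.map' (f := θ) hθ).map' (f := ψ) (RingHom.injective _)) fun _ _ h v => h (e v)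

end Td

variable {I ι κ M : Type} [Fintype I] [DecidableEq I] [Fintype ι] [Fintype κ] [Fintype M]

omit [Fintype I] in
theorem rk_frame {k Ω : Type*} [Field k] [Field Ω] [Algebra k Ω] {F : I → MvPolynomial ι k}
    {d : I → ℕ} [Fintype {e : Mon κ fun i => d i + 1 // e.1.2 ≠ 0}] (A : ι × κ → Ω) (z : ι → Ω)
    (h1 : ∀ i, aeval (frame A z) (F i) = 0)
    (h2 : Good (fun i j => aeval (frame A z) (pderiv j (F i))) d) :
    rk (im k Ω ∪ Set.range z) A + Fintype.card {e : Mon κ fun i => d i + 1 // e.1.2 ≠ 0} ≤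
      Fintype.card (ι × κ) := by
  refine rk_hit (fun i v => X v.2 * aeval (frame A z) (pderiv v.1 (F i))) (fun e => e.1.1)
    (Subtype.val_injective.comp Subtype.val_injective) (fun e => h2.mulX e.2 e.1.2)
    fun D hD i => ?_
  obtain ⟨t1, t2⟩ := mem_kill_union.1 hD
  have := congrArg (cd D) (h1 i)
  simp only [cd_aeval t1, cd_frame, t2, map_zero, zero_add, Finset.mul_sum] at this
  rw [Fintype.sum_prod_type, ← this]
  exact Finset.sum_congr rfl fun _ _ => Finset.sum_congr rfl fun _ _ => by ring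

theorem good_frame {k L : Type*} [Field k] [IsAlgClosed k] [CharZero k] [Field L] [Algebra k L]
    {f : I → MvPolynomial ι k} {d : I → ℕ} [Fintype (Mon κ d)] (hf : ∀ i, (f i).IsHomogeneous (d i))
    (hd : ∀ i, 1 ≤ d i) {l : M → MvPolynomial ι k} (hl : ∀ m, ∃ e, 1 ≤ e ∧ (l m).IsHomogeneous e)
    (hs : Sm k f l) {c : I → k} (A : ι × κ → L) (p : ι → L)
    (hp : ∀ i, aeval p (f i) = algebraMap k L (c i))
    (h : Fintype.card (Mon κ d) + Fintype.card (ι × κ) + Fintype.card M <
      rk (im k L) (Sum.elim A p)) :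
    Good (fun i j => aeval (frame A p) (pderiv j (f i))) d := by
  refine good_of_surj (fun i j => ((dg_of_hom (hf i)).pderiv j).aeval (dg_frame A p))
    (surj_of_indep (Fintype.linearIndependent_iff.2 fun θ hθ => by_contra fun h0 => h.not_ge ?_))
  obtain ⟨ξ, hξ⟩ := fin_der hf hd hl hs A p hp θ (not_forall.1 h0)
    fun j => by simpa [Finset.sum_apply] using congrFun hθ j
  refine (rk_mono (z := Sum.elim (Sum.elim θ fun v => A v - algebraMap k L (ξ v.2) * p v.1)
    fun m => aeval p (l m)) le_rfl fun D hD t => ?_).trans ((rk_le_card _).trans (by simp))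
  have t1 := fun v => t (Sum.inl (Sum.inr v))
  have t2 := hξ D hD (fun e => t (Sum.inl (Sum.inl e))) t1 fun m => t (Sum.inr m)
  exact Sum.forall.2 ⟨fun v => by simpa [t2, mem_kill_im.1 hD] using t1 v, t2⟩

theorem alg (I : Type) [Fintype I] [DecidableEq I] (D : ℕ) : ∃ n₀ : ℕ,
    ∀ (k : Type u) [Field k] [IsAlgClosed k] [CharZero k] (ι M : Type) [Fintype ι] [Fintype M]
      (β : Type u) (f : I → MvPolynomial ι k) (d : I → ℕ) (l : M → MvPolynomial ι k) (c : I → k)
      (b : β → MvPolynomial ι k), Fintype.card M + n₀ ≤ Fintype.card ι →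
      (∀ i, (f i).IsHomogeneous (d i)) → (∀ i, 1 ≤ d i) → (∀ i, d i ≤ D) →
      (∀ m, ∃ e, 1 ≤ e ∧ (l m).IsHomogeneous e) → Sm k f l →
      (∃ p₀ : ι → k, ∀ i, aeval p₀ (f i) = c i) →
      Dim k (Sum.elim (fun i => f i - C (c i)) b) (Fintype.card I + 2) →
      ∃ σ, Par k k (fun i => f i - C (c i)) b σ (Fintype.card I) := by
  classical
  obtain ⟨κ, _, hκ⟩ := core.{u} I D
  have := Fintype.ofFinite (Mon κ fun _ : I => D + 1)
  refine ⟨2 * Fintype.card (Mon κ fun _ : I => D + 1) + Fintype.card I + 1, ?_⟩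
  intro k _ _ _ ι M _ _ β f d l c b hN hf hd hD hl hs ⟨p₀, hp₀⟩ hdim
  have := Fintype.ofFinite (Mon κ d)
  have := Fintype.ofFinite {e : Mon κ fun i => d i + 1 // e.1.2 ≠ 0}
  have b1 : Fintype.card (Mon κ d) ≤ Fintype.card (Mon κ fun _ : I => D + 1) :=
    Fintype.card_le_of_injective (fun e => ⟨e.1, e.2.trans_le ((hD _).trans (Nat.le_succ _))⟩)
    fun _ _ h => Subtype.ext (Subtype.mk.inj h)
  have b2 : Fintype.card {e : Mon κ fun i => d i + 1 // e.1.2 ≠ 0} ≤
      Fintype.card (Mon κ fun _ : I => D + 1) :=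
    Fintype.card_le_of_injective (fun e => ⟨e.1.1, e.1.2.trans_le (Nat.succ_le_succ (hD _))⟩)
    fun _ _ h => Subtype.ext (Subtype.ext (Subtype.mk.inj h))
  set F := fun i => f i - C (c i) with hF
  have dF : ∀ i, Dg (F i) (d i + 1) := fun i => (dg_of_hom (hf i)).sub ((dg_C _).mono (by omega))
  have pF : ∀ i j, pderiv j (F i) = pderiv j (f i) := fun i j => by simp [hF]
  let U : ι → MvPolynomial κ (MvPolynomial ((ι × κ) ⊕ ι) k) :=
    frame (fun v => X (Sum.inl v)) fun v => X (Sum.inr v)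
  have hU : ∀ {S : Type u} [CommRing S] [Algebra k S] (x : (ι × κ) ⊕ ι → S) i α,
      aeval x (coeff α (aeval U (F i))) = coeff α
        (aeval (frame (fun v => x (Sum.inl v)) fun v => x (Sum.inr v)) (F i)) := fun x i α => by
    refine (coeff_map (aeval x : MvPolynomial _ k →ₐ[k] _).toRingHom _ _).symm.trans ?_
    simp only [AlgHom.toRingHom_eq_coe, map_aeval', U, map_frame, RingHom.coe_coe, aeval_X]
  have := RingHom.ker_isPrime (aeval (R := k) (X : (ι × κ) ⊕ ι → MvPolynomial _ k))
  have := RingHom.ker_isPrime (aeval (R := k) (Sum.elim 0 p₀ : (ι × κ) ⊕ ι → k))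
  obtain ⟨P, _, -, -, k1, k2⟩ := krull (RingHom.ker (aeval (R := k) (X : (ι × κ) ⊕ ι → _)))
    (RingHom.ker (aeval (R := k) (Sum.elim 0 p₀ : (ι × κ) ⊕ ι → k)))
    (fun g hg => by rw [show g = 0 from (aeval_X_left_apply g).symm.trans hg]; exact zero_mem _)
    (Sum.elim (fun e : {e : Mon κ fun i => d i + 1 // e.1.2 ≠ 0} =>
      coeff e.1.1.2 (aeval U (F e.1.1.1))) fun i => coeff 0 (aeval U (F i)))
    (by
      have : ∀ i α, aeval (Sum.elim 0 p₀ : (ι × κ) ⊕ ι → k) (coeff α (aeval U (F i))) = 0 :=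
        fun i α => by
          rw [hU, show (frame _ _ : ι → MvPolynomial κ k) = fun j => algebraMap k _ (p₀ j) from
            funext fun j => by simp [frame], aeval_map']
          simp [hF, ← hp₀]
      exact Sum.forall.2 ⟨fun _ => this _ _, fun _ => this _ _⟩) Finset.univ
  have k3 := (card_le_td (S := Finset.univ)
    ((algebraicIndependent_X _ k).comp _ Subtype.val_injective)).trans k2
  obtain ⟨L, _, _, x, x1, x2⟩ := generic P
  have : CharZero L := charZero_of_injective_algebraMap (algebraMap k L).injective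
  obtain ⟨A, p, rfl⟩ : ∃ A p, x = Sum.elim A p := ⟨_, _, (Sum.elim_comp_inl_inr x).symm⟩
  simp only [Finset.card_univ, Fintype.card_sum] at k3
  have f0 : ∀ i, aeval (frame A p) (F i) = 0 := fun i =>
    ((dF i).aeval (dg_frame A p)).ext dg_zero fun α hα => (hU (Sum.elim A p) i α).symm.trans <|
      (x1 _).2 <| by
        by_cases h : α = 0
        · exact h ▸ k1 (Sum.inr i) (by simp)
        · exact k1 (Sum.inl ⟨⟨(i, α), hα⟩, h⟩) (by simp)
  have c0 : ∀ j, aeval (fun _ => (0 : L)) (frame A p j) = p j := fun j => by simp [frame]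
  have f1 : ∀ i, aeval p (F i) = 0 := fun i => by
    simpa only [aeval_aeval, c0, map_zero] using congrArg (aeval fun _ => (0 : L)) (f0 i)
  have x3 : td P ≤ rk (im k L) (Sum.elim A p) := x2 L (AlgHom.id k L)
  have g0 := good_frame hf hd hl hs A p (c := c) (fun i => by simpa [hF, sub_eq_zero] using f1 i)
    (by omega)
  simp only [← pF] at g0
  have hn : nz d = Fintype.card I := by simp [nz, hd]
  refine (hκ L ι β (fun i => map (algebraMap k L) (F i)) d (fun g => map (algebraMap k L) (b g))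
    (frame A p) hD (fun i => (dF i).map _) (dg_frame A p)
    (by simpa only [aeval_map_algebraMap] using f0)
    (by simpa only [pderiv_map, aeval_map_algebraMap] using g0) (fun Ω _ _ z hz => ?_)
    (fun Ω _ _ μ hμ => ?_) (by_contra fun h => ?_)).spec.imp fun _ h => hn ▸ h
  · let : Algebra k Ω := ((algebraMap L Ω).comp (algebraMap k L)).toAlgebra
    have : IsScalarTower k L Ω := .of_algebraMap_eq' rfl
    have r1 := hdim Ω z (by simpa only [Sum.forall, Sum.elim_inl, Sum.elim_inr,
      aeval_map_algebraMap] using hz)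
    have r2 := rk_mono (z := z) (kill_tower k L (Ω := Ω)) fun _ _ h => h
    omega
  · let : Algebra k Ω := ((algebraMap L Ω).comp (algebraMap k L)).toAlgebra
    have : IsScalarTower k L Ω := .of_algebraMap_eq' rfl
    simp only [aeval_map_algebraMap, aeval_aeval] at hμ
    have r1 := hdim Ω _ (Sum.forall.2 ⟨fun i => by
      simpa only [aeval_aeval, map_zero, Sum.elim_inl] using congrArg (aeval μ) (f0 i), hμ⟩)
    have r2 := x2 Ω (IsScalarTower.toAlgHom k L Ω)
    let Ψ : MvPolynomial κ Ω →ₐ[Ω] MvPolynomial κ Ω := aeval fun l => X l + C (μ l)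
    have e1 : ∀ q : MvPolynomial ι k, Ψ (map (algebraMap L Ω) (aeval (frame A p) q)) =
        aeval (frame (fun v => algebraMap L Ω (A v)) fun j => aeval μ (frame A p j)) q := fun q => by
      erw [map_aeval' (IsScalarTower.toAlgHom k L Ω), aeval_aeval]
      congr 2
      funext j
      simp [frame, mul_add, Finset.sum_add_distrib, add_comm, add_left_comm]
    have r3 := rk_frame (F := F) (d := d) (fun v => algebraMap L Ω (A v))
      (fun j => aeval μ (frame A p j)) (fun i => by rw [← e1, f0, map_zero, map_zero]) (by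
        simpa only [e1] using (g0.map (algebraMap L Ω)).comp Ψ (fun l => X l - C (μ l))
          (fun l => (dg_X _).sub ((dg_C _).mono (by omega))) fun l => by simp [Ψ])
    have r4 := rk_exch (w := fun v => algebraMap L Ω (Sum.elim A p v)) (y := μ)
      (x := fun j => aeval μ (frame A p j)) (z := Sum.elim (fun v => algebraMap L Ω (A v)) μ)
      (kill_tower k L) (fun D hD _ => mem_kill_im.1 hD _) fun D _ s1 s2 => by
        obtain ⟨s2, s3⟩ := Sum.forall.1 s2
        simp only [Sum.elim_inl, Sum.elim_inr] at s2 s3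
        exact ⟨Sum.forall.2 ⟨s2, fun j => by simpa [frame, s2, s3] using s1 j⟩, s3⟩
    rw [rk_sum] at r4
    have r5 := rk_le_card (T := im k Ω ∪ Set.range (fun j => aeval μ (frame A p j)) ∪
      Set.range fun v => algebraMap L Ω (A v)) μ
    change _ ≤ rk _ fun v => algebraMap L Ω (Sum.elim A p v) at r2
    omega
  · simp only [not_exists, not_not, cc_eq, aeval_map_algebraMap, aeval_aeval, c0] at h
    have r1 := hdim L p (Sum.forall.2 ⟨f1, h⟩)
    have r2 := rk_frame A p f0 g0
    have r3 := rk_mono (T := im k L) (T' := im k L) (z := Sum.elim p A) (y := Sum.elim A p) le_rfl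
      fun _ _ h => Sum.forall.2 (Sum.forall.1 h).symm
    rw [rk_sum p A] at r3
    omega

end Pool.Agent.P.MP_84b56d_ag.CI
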